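import Pool.Agent.TH829.Kim.Alg2

/-!
# Splitting idempotents into an even and an odd part
-/

namespace Pool.Agent.Q263.NCK

open Pool.Agent.TH829.Kim

variable {R : Type*} [Ring R] [Algebra ℚ R] {tr : R →ₗ[ℚ] ℚ}

/-- Lifting of idempotents, with control of the lift. -/
lemma exists_lift' {e : R} (he : IsNilpotent (e * e - e)) : ∃ e' c : R, e' * e' = e' ∧
    e' - e = (e * e - e) * c ∧ e' ∈ Algebra.adjoin ℚ {e} ∧ c ∈ Algebra.adjoin ℚ {e} := by
  obtain ⟨N, hN⟩ := he
  obtain ⟨φ, ⟨r, hr⟩, ⟨s, hs⟩⟩ := exists_poly N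
  refine ⟨Polynomial.aeval e φ, Polynomial.aeval e s, ?_, ?_,
    Polynomial.aeval_mem_adjoin_singleton ℚ e, Polynomial.aeval_mem_adjoin_singleton ℚ e⟩
  · have h1 := congrArg (Polynomial.aeval e) hr
    rw [map_sub, map_pow, map_mul, map_pow, map_sub, map_pow, Polynomial.aeval_X, sq e,
      pow_eq_zero_of_le (Nat.le_succ N) hN, zero_mul, sub_eq_zero, sq] at h1
    exact h1
  · have h1 := congrArg (Polynomial.aeval e) hs
    rw [map_sub, map_mul, map_sub, map_pow, Polynomial.aeval_X, sq] at h1
    exact h1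

lemma InRad.congr2 (hsym : ∀ a b, tr (a * b) = tr (b * a)) {x y z : R} (h : InRad tr (x - y))
    (h2 : InRad tr (y * z * y)) : InRad tr (x * z * x) := by
  have e1 : x * z * x = y * z * y + (x - y) * (z * x) + (y * z) * (x - y) := by noncomm_ring
  rw [e1]
  exact (h2.add (h.mul_right _)).add (h.mul_left hsym _)

/-- If `x` is an idempotent and `x - x e x` is nilpotent then `x` factors through `e`. -/
lemma factor_of_nil {x e : R} (hx : x * x = x) (hn : IsNilpotent (x - x * e * x)) :
    ∃ u v : R, x = u * e * v := by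
  obtain ⟨w, hw⟩ : ∃ w : R, (1 - (x - x * e * x)) * w = 1 := by
    have h3 := hn.isUnit_one_sub
    obtain ⟨U, hU⟩ := h3
    exact ⟨↑U⁻¹, by rw [← hU, Units.mul_inv]⟩
  refine ⟨x, x * w, ?_⟩
  have h1 : x * e * x = x * (1 - (x - x * e * x)) := by
    rw [mul_sub, mul_sub, mul_one, hx]
    have : x * (x * e * x) = x * e * x := by rw [← mul_assoc, ← mul_assoc, hx]
    rw [this]
    abel
  rw [← mul_assoc (x * e), h1, mul_assoc, hw, mul_one]

theorem exists_split (hsym : ∀ a b, tr (a * b) = tr (b * a)) {e p : R} (he : e * e = e)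
    (hp : p * p = p) {n m : ℕ} (hE : Killed tr (-1) e n) (hO : Killed tr 1 (1 - e) m) :
    ∃ e' f' u v u' v' : R, e' + f' = p ∧ e' * e' = e' ∧ f' * f' = f' ∧ e' * f' = 0 ∧
      f' * e' = 0 ∧ e' = u * e * v ∧ f' = u' * (1 - e) * v' := by
  have hnil : ∀ x : R, InRad tr x → IsNilpotent x := fun x hx => isNilpotent_of_inRad hsym he hE hO hx
  set g := 1 - e with hg
  have hgg : g * g = g := by
    rw [hg, mul_sub, sub_mul, sub_mul, one_mul, one_mul, mul_one, he, sub_self, sub_zero]
  have rad1 : ∀ b, InRad tr (e * b * g) := by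
    intro b γ
    have h2 := even_odd hsym he hgg hE hO b γ
    rw [← h2]
    calc tr (e * b * g * γ) = tr (e * (e * b * g * γ)) := by simp only [← mul_assoc, he]
      _ = tr ((e * b * g * γ) * e) := hsym _ _
      _ = tr (e * b * (g * g) * γ * e) := by rw [hgg]
      _ = _ := by simp only [mul_assoc]
  have rad2 : ∀ b, InRad tr (g * b * e) := by
    intro b γ
    have h2 := even_odd hsym he hgg hE hO γ b
    rw [← h2]
    calc tr (g * b * e * γ) = tr (g * (g * b * e * γ)) := by simp only [← mul_assoc, hgg]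
      _ = tr ((g * b * e * γ) * g) := hsym _ _
      _ = tr ((g * b * (e * e) * γ) * g) := by rw [he]
      _ = tr ((g * b * e) * (e * γ * g)) := by simp only [mul_assoc]
      _ = _ := hsym _ _
  have hge : 1 = e + g := by rw [hg]; abel
  set q0 := p * e * p with hq0
  have hD : q0 * q0 - q0 = -(p * (e * p * g) * p) := by
    have h1 : e * p * g = e * p - e * p * e := by rw [hg, mul_sub, mul_one]
    rw [h1, hq0]
    have h2 : p * e * p * (p * e * p) = p * (e * p * e) * p := by
      calc p * e * p * (p * e * p) = p * e * (p * p) * e * p := by simp only [mul_assoc]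
        _ = _ := by rw [hp]; simp only [mul_assoc]
    have h3 : p * (e * p) * p = p * e * p := by
      calc p * (e * p) * p = p * e * (p * p) := by simp only [mul_assoc]
        _ = _ := by rw [hp]
    rw [h2, mul_sub, sub_mul, h3]
    abel
  have hDrad : InRad tr (q0 * q0 - q0) := by
    rw [hD]
    exact (((rad1 p).mul_left hsym p).mul_right p).neg
  obtain ⟨e', c, h1, h2, h3, h4⟩ := exists_lift' (hnil _ hDrad)
  have hpq : p * q0 = q0 := by rw [hq0, ← mul_assoc, ← mul_assoc, hp]
  have hqp : q0 * p = q0 := by rw [hq0, mul_assoc, hp]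
  have hcomm : ∀ z ∈ Algebra.adjoin ℚ {q0}, p * z = z * p := by
    intro z hz
    induction hz using Algebra.adjoin_induction with
    | mem x hx =>
      rw [Set.mem_singleton_iff] at hx
      rw [hx, hpq, hqp]
    | algebraMap r => exact (Algebra.commutes r p).symm
    | add x y _ _ hx hy => rw [mul_add, add_mul, hx, hy]
    | mul x y _ _ hx hy => rw [← mul_assoc, hx, mul_assoc, hy, mul_assoc]
  have he'q : e' = q0 + (q0 * q0 - q0) * c := by rw [← h2]; abel
  have hDp : p * (q0 * q0 - q0) = q0 * q0 - q0 := by rw [mul_sub, ← mul_assoc, hpq]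
  have hpe' : p * e' = e' := by
    rw [he'q, mul_add, ← mul_assoc p (q0 * q0 - q0) c, hDp, hpq]
  have he'p : e' * p = e' := by rw [← hcomm e' h3, hpe']
  have hrad' : InRad tr (e' - q0) := by
    rw [h2]
    exact hDrad.mul_right c
  set f' := p - e' with hf'
  have hf'f' : f' * f' = f' := by
    rw [hf', mul_sub, sub_mul, sub_mul, hp, hpe', he'p, h1]
    abel
  have hef : e' * f' = 0 := by rw [hf', mul_sub, he'p, h1, sub_self]
  have hfe : f' * e' = 0 := by rw [hf', sub_mul, hpe', h1, sub_self]
  have hn1 : InRad tr (e' - e' * e * e') := by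
    have h5 : e' - e' * e * e' = e' * g * e' := by
      rw [hg, mul_sub, sub_mul, mul_one, h1]
    rw [h5]
    apply InRad.congr2 hsym hrad'
    have h6 : q0 * g * q0 = p * (e * p * g) * (p * e * p) := by
      rw [hq0]; simp only [mul_assoc]
    rw [h6]
    exact ((rad1 p).mul_left hsym p).mul_right _
  have hn2 : InRad tr (f' - f' * g * f') := by
    have h5 : f' - f' * g * f' = f' * e * f' := by
      have h9 : f' * g * f' = f' * f' - f' * e * f' := by rw [hg]; noncomm_ring
      rw [h9, hf'f']
      abel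
    rw [h5]
    have h7 : InRad tr (f' - p * g * p) := by
      have h8 : f' - p * g * p = -(e' - q0) := by
        rw [hf', hq0, hg, mul_sub, sub_mul, mul_one, hp]
        abel
      rw [h8]
      exact hrad'.neg
    apply InRad.congr2 hsym h7
    have h6 : p * g * p * e * (p * g * p) = p * (g * p * e) * (p * g * p) := by
      simp only [mul_assoc]
    rw [h6]
    exact ((rad2 p).mul_left hsym p).mul_right _
  obtain ⟨u, v, huv⟩ := factor_of_nil h1 (hnil _ hn1)
  obtain ⟨u', v', huv'⟩ := factor_of_nil hf'f' (hnil _ hn2)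
  exact ⟨e', f', u, v, u', v', by rw [hf']; abel, h1, hf'f', hef, hfe, huv, huv'⟩

end Pool.Agent.Q263.NCK
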