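import Pool.Agent.Q263.NCK.Val

/-!
# Contractions of the generalized determinants of families; the trace
-/

open CategoryTheory AlgebraicGeometry

universe u v w

namespace Pool.Agent.Q263.NCK

open Pool.Agent.H914 Pool.Agent.H914.VarClass Pool.Agent.H914.VarClass.Obj Pool.Agent.W492.BB
  Pool.Agent.W550.Corr Pool.Agent.TH133 Pool.Agent.TH829.Prime Pool.Agent.TH829.Kim

set_option linter.unusedSectionVars false

variable {k : Type u} [Field k] {𝒱 : VarClass k}

variable {C : TheoryData.{u, v, 0} 𝒱 ℚ} [hC : IsChowProj C] {W V : 𝒱.Obj}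
  {I : Type} [Fintype I] [DecidableEq I] {Y : I → 𝒱.Obj}

include hC

lemma gF_zero (s : Bool) (a : Fin 0 → HomF C Y Y) (x y : Fin 0 → Pt Y W) :
    gF s a x y = 1 := by
  rw [gF, Fintype.sum_unique]
  simp [wt]

lemma gF_one (s : Bool) (a : Fin 1 → HomF C Y Y) (x y : Fin 1 → Pt Y W) :
    gF s a x y = val C (a 0) (x 0) (y 0) := by
  rw [gF, Fintype.sum_unique]
  simp [wt]

/-- The value at a point of the diagonal, pushed forward. -/
lemma push_val_diag {p : HomF C Y Y} {l : I} {q : ℚ}
    (hq : HasDegree C (val C p ⟨l, 𝟙 (Y l)⟩ ⟨l, 𝟙 (Y l)⟩) q)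
    (W : 𝒱.Obj) : C.push (fst W (Y l)) (val C p ⟨l, snd W (Y l)⟩ ⟨l, snd W (Y l)⟩) =
      q • (1 : C.A W) := by
  have h := (hq W).2
  rw [pull_val] at h
  simp only [ptPull, Category.comp_id] at h
  exact h

/-- The contraction of the first variable. -/
lemma push_gF (s : Bool) {n : ℕ} (a : Fin (n + 1) → HomF C Y Y) (x y : Fin n → Pt Y W)
    {q : I → ℚ} (hq : ∀ l, HasDegree C (val C (a 0) ⟨l, 𝟙 (Y l)⟩ ⟨l, 𝟙 (Y l)⟩) (q l)) :
    ∑ l, C.push (fst W (Y l)) (gF s a
      (Fin.cons ⟨l, snd W (Y l)⟩ (fun i => ptPull (fst W (Y l)) (x i)) :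
        Fin (n + 1) → Pt Y (W.prod (Y l)))
      (Fin.cons ⟨l, snd W (Y l)⟩ (fun i => ptPull (fst W (Y l)) (y i)) :
        Fin (n + 1) → Pt Y (W.prod (Y l)))) =
      (∑ l, q l) • gF s (fun i => a i.succ) x y + eta s • ∑ i, gF s
        (Function.update (fun i => a i.succ) i (compF C (a i.succ) (a 0))) x y := by
  have hwt0 : ∀ τ : Equiv.Perm (Fin n), wt s (Equiv.Perm.decomposeFin.symm (0, τ)) = wt s τ := by
    intro τ
    unfold wt
    split_ifs
    · rw [Equiv.Perm.decomposeFin.symm_sign, if_pos rfl, one_mul]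
    · rfl
  have hwts : ∀ (p : Fin n) (τ : Equiv.Perm (Fin n)),
      ((wt s (Equiv.Perm.decomposeFin.symm (p.succ, τ)) : ℤ) : ℚ) = eta s * (wt s τ : ℤ) := by
    intro p τ
    unfold wt eta
    split_ifs
    · rw [Equiv.Perm.decomposeFin.symm_sign, if_neg (Fin.succ_ne_zero p)]
      push_cast
      ring
    · norm_num
  -- one factor
  have hl : ∀ l : I, C.push (fst W (Y l)) (gF s a
      (Fin.cons ⟨l, snd W (Y l)⟩ (fun i => ptPull (fst W (Y l)) (x i)) :
        Fin (n + 1) → Pt Y (W.prod (Y l)))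
      (Fin.cons ⟨l, snd W (Y l)⟩ (fun i => ptPull (fst W (Y l)) (y i)) :
        Fin (n + 1) → Pt Y (W.prod (Y l)))) =
      q l • gF s (fun i => a i.succ) x y + eta s • ∑ i, ∑ τ : Equiv.Perm (Fin n), wt s τ •
        (C.push (fst W (Y l)) (val C (a i.succ) (ptPull (fst W (Y l)) (x i)) ⟨l, snd W (Y l)⟩ *
          val C (a 0) ⟨l, snd W (Y l)⟩ (ptPull (fst W (Y l)) (y (τ i)))) *
            ∏ j ∈ Finset.univ.erase i, val C (a j.succ) (x j) (y (τ j))) := by
    intro l
    set x' : Fin (n + 1) → Pt Y (W.prod (Y l)) :=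
      Fin.cons ⟨l, snd W (Y l)⟩ (fun i => ptPull (fst W (Y l)) (x i)) with hx'
    set y' : Fin (n + 1) → Pt Y (W.prod (Y l)) :=
      Fin.cons ⟨l, snd W (Y l)⟩ (fun i => ptPull (fst W (Y l)) (y i)) with hy'
    have hx0 : x' 0 = ⟨l, snd W (Y l)⟩ := rfl
    have hy0 : y' 0 = ⟨l, snd W (Y l)⟩ := rfl
    have hxs : ∀ i : Fin n, x' i.succ = ptPull (fst W (Y l)) (x i) := fun i => rfl
    have hys : ∀ i : Fin n, y' i.succ = ptPull (fst W (Y l)) (y i) := fun i => rfl
    have hs : gF s a x' y' = ∑ τ : Equiv.Perm (Fin n), ∑ p : Fin (n + 1),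
        wt s (Equiv.Perm.decomposeFin.symm (p, τ)) •
          ∏ i, val C (a i) (x' i) (y' (Equiv.Perm.decomposeFin.symm (p, τ) i)) := by
      rw [gF, ← Equiv.sum_comp Equiv.Perm.decomposeFin.symm, Fintype.sum_prod_type_right]
    -- the terms with `σ 0 = 0`
    have hterm0 : ∀ τ : Equiv.Perm (Fin n), C.push (fst W (Y l))
        (wt s (Equiv.Perm.decomposeFin.symm (0, τ)) •
          ∏ i, val C (a i) (x' i) (y' (Equiv.Perm.decomposeFin.symm (0, τ) i))) =
        q l • (wt s τ • ∏ i : Fin n, val C (a i.succ) (x i) (y (τ i))) := by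
      intro τ
      rw [hwt0, map_zsmul, Fin.prod_univ_succ, Equiv.Perm.decomposeFin_symm_apply_zero, hx0, hy0]
      have h1 : ∏ i : Fin n, val C (a i.succ) (x' i.succ)
          (y' (Equiv.Perm.decomposeFin.symm (0, τ) i.succ)) =
          C.pull (fst W (Y l)) (∏ i : Fin n, val C (a i.succ) (x i) (y (τ i))) := by
        rw [map_prod]
        apply Finset.prod_congr rfl
        intro i _
        rw [Equiv.Perm.decomposeFin_symm_apply_succ, Equiv.swap_self, Equiv.refl_apply, hxs, hys,
          pull_val]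
      rw [h1, C.proj_right, push_val_diag (hq l), smul_mul_assoc, one_mul, smul_comm]
    -- the other terms
    have hterm1 : ∀ (τ : Equiv.Perm (Fin n)) (i : Fin n), C.push (fst W (Y l))
        (wt s (Equiv.Perm.decomposeFin.symm ((τ i).succ, τ)) •
          ∏ j, val C (a j) (x' j) (y' (Equiv.Perm.decomposeFin.symm ((τ i).succ, τ) j))) =
        eta s • (wt s τ • (C.push (fst W (Y l)) (val C (a i.succ)
          (ptPull (fst W (Y l)) (x i)) ⟨l, snd W (Y l)⟩ *
          val C (a 0) ⟨l, snd W (Y l)⟩ (ptPull (fst W (Y l)) (y (τ i)))) *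
            ∏ j ∈ Finset.univ.erase i, val C (a j.succ) (x j) (y (τ j)))) := by
      intro τ i
      rw [map_zsmul, ← Int.cast_smul_eq_zsmul ℚ, hwts, mul_smul, Int.cast_smul_eq_zsmul,
        Fin.prod_univ_succ, Equiv.Perm.decomposeFin_symm_apply_zero, hx0, hys,
        ← Finset.mul_prod_erase Finset.univ _ (Finset.mem_univ i)]
      congr 2
      have h1 : ∏ j ∈ Finset.univ.erase i, val C (a j.succ) (x' j.succ)
          (y' (Equiv.Perm.decomposeFin.symm ((τ i).succ, τ) j.succ)) =
          C.pull (fst W (Y l)) (∏ j ∈ Finset.univ.erase i, val C (a j.succ) (x j) (y (τ j))) := by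
        rw [map_prod]
        apply Finset.prod_congr rfl
        intro j hj
        have hji : j ≠ i := (Finset.mem_erase.1 hj).1
        rw [Equiv.Perm.decomposeFin_symm_apply_succ, Equiv.swap_apply_of_ne_of_ne
          (Fin.succ_ne_zero _) (by
            intro h
            exact hji (τ.injective (Fin.succ_injective _ h))), hxs, hys, pull_val]
      rw [h1, ← mul_assoc, C.proj_right, Equiv.Perm.decomposeFin_symm_apply_succ,
        Equiv.swap_apply_right, hxs, hy0, ch_comm C (val C (a 0) _ _)]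
    rw [hs, map_sum]
    have h3 : ∀ τ : Equiv.Perm (Fin n), C.push (fst W (Y l)) (∑ p : Fin (n + 1),
        wt s (Equiv.Perm.decomposeFin.symm (p, τ)) •
          ∏ i, val C (a i) (x' i) (y' (Equiv.Perm.decomposeFin.symm (p, τ) i))) =
        q l • (wt s τ • ∏ i : Fin n, val C (a i.succ) (x i) (y (τ i))) +
        ∑ i : Fin n, eta s • (wt s τ • (C.push (fst W (Y l)) (val C (a i.succ)
          (ptPull (fst W (Y l)) (x i)) ⟨l, snd W (Y l)⟩ *
          val C (a 0) ⟨l, snd W (Y l)⟩ (ptPull (fst W (Y l)) (y (τ i)))) *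
            ∏ j ∈ Finset.univ.erase i, val C (a j.succ) (x j) (y (τ j)))) := by
      intro τ
      rw [map_sum, Fin.sum_univ_succ, hterm0, ← Equiv.sum_comp τ]
      congr 1
      apply Finset.sum_congr rfl
      intro i _
      exact hterm1 τ i
    rw [Finset.sum_congr rfl (fun τ _ => h3 τ), Finset.sum_add_distrib, ← Finset.smul_sum]
    congr 1
    rw [Finset.sum_comm, Finset.smul_sum]
    apply Finset.sum_congr rfl
    intro i _
    rw [← Finset.smul_sum]
  rw [Finset.sum_congr rfl (fun l _ => hl l), Finset.sum_add_distrib, ← Finset.sum_smul,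
    ← Finset.smul_sum, Finset.sum_comm]
  congr 2
  apply Finset.sum_congr rfl
  intro i _
  rw [Finset.sum_comm, gF]
  apply Finset.sum_congr rfl
  intro τ _
  rw [← Finset.smul_sum, ← Finset.sum_mul, ← val_comp,
    ← Finset.mul_prod_erase Finset.univ _ (Finset.mem_univ i), Function.update_self]
  congr 2
  apply Finset.prod_congr rfl
  intro j hj
  rw [Function.update_of_ne (Finset.mem_erase.1 hj).1]

/-! ### Families of functions of `n` pairs of points -/

variable (C Y) in
omit hC [Fintype I] [DecidableEq I] in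
/-- Functions of `n` pairs of points. -/
abbrev Fam (n : ℕ) : Type _ := ∀ W : 𝒱.Obj, (Fin n → Pt Y W) → (Fin n → Pt Y W) → C.A W

variable (C Y) in
/-- The contraction of the first pair of points. -/
noncomputable def conL (n : ℕ) : Fam C Y (n + 1) →ₗ[ℚ] Fam C Y n where
  toFun G W x y := ∑ l, C.push (fst W (Y l)) (G (W.prod (Y l))
      (Fin.cons ⟨l, snd W (Y l)⟩ (fun i => ptPull (fst W (Y l)) (x i)))
      (Fin.cons ⟨l, snd W (Y l)⟩ (fun i => ptPull (fst W (Y l)) (y i))))
  map_add' G G' := by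
    funext W x y
    simp only [Pi.add_apply, map_add, Finset.sum_add_distrib]
  map_smul' q G := by
    funext W x y
    simp only [Pi.smul_apply, map_smul, Finset.smul_sum, RingHom.id_apply]

variable (C Y) in
/-- The contraction of the first `n` of `n + 1` pairs of points. -/
noncomputable def iterL : ∀ n : ℕ, Fam C Y (n + 1) →ₗ[ℚ] Fam C Y 1
  | 0 => LinearMap.id
  | n + 1 => iterL n ∘ₗ conL C Y (n + 1)

variable (C Y) in
/-- The contraction of all pairs of points. -/
noncomputable def iterL0 : ∀ n : ℕ, Fam C Y n →ₗ[ℚ] Fam C Y 0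
  | 0 => LinearMap.id
  | n + 1 => iterL0 n ∘ₗ conL C Y n

/-! ### The trace -/

lemma exists_trF (a : EndF C Y) (l : I) :
    ∃ q : ℚ, HasDegree C (val C (mat a) ⟨l, 𝟙 (Y l)⟩ ⟨l, 𝟙 (Y l)⟩) q := exists_degree _

/-- The trace of an entry. -/
noncomputable def tr1 (hne : ∀ X : 𝒱.Obj, (1 : C.A X) ≠ 0) (Y : I → 𝒱.Obj) (l : I) :
    EndF C Y →ₗ[ℚ] ℚ where
  toFun a := (exists_trF a l).choose
  map_add' a b := by
    apply hasDegree_uniq (hne (Y l)) (exists_trF (a + b) l).choose_spec
    have h := HasDegree.add (exists_trF a l).choose_spec (exists_trF b l).choose_spec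
    rw [← val_add, ← mat_add] at h
    exact h
  map_smul' r a := by
    apply hasDegree_uniq (hne (Y l)) (exists_trF (r • a) l).choose_spec
    have h := HasDegree.smul r (exists_trF a l).choose_spec
    rw [← val_smul, ← mat_smul] at h
    exact h

/-- The trace of an endomorphism: the sum of the degrees of the restrictions of the diagonal entries
to the diagonals. -/
noncomputable def trF (hne : ∀ X : 𝒱.Obj, (1 : C.A X) ≠ 0) (Y : I → 𝒱.Obj) : EndF C Y →ₗ[ℚ] ℚ :=
  ∑ l, tr1 hne Y l

variable {hne : ∀ X : 𝒱.Obj, (1 : C.A X) ≠ 0}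

lemma tr1_spec (a : EndF C Y) (l : I) :
    HasDegree C (val C (mat a) ⟨l, 𝟙 (Y l)⟩ ⟨l, 𝟙 (Y l)⟩) (tr1 hne Y l a) :=
  (exists_trF a l).choose_spec

lemma trF_apply (a : EndF C Y) : trF hne Y a = ∑ l, tr1 hne Y l a := by
  rw [trF, LinearMap.sum_apply]

lemma HasDegree.sum' {X : 𝒱.Obj} {L : Type} (s : Finset L) {z : L → C.A X} {q : L → ℚ}
    (h : ∀ l, HasDegree C (z l) (q l)) : HasDegree C (∑ l ∈ s, z l) (∑ l ∈ s, q l) := by
  classical
  induction s using Finset.induction_on with
  | empty =>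
    rw [Finset.sum_empty, Finset.sum_empty]
    exact hasDegree_zero
  | insert l s hl ih =>
    rw [Finset.sum_insert hl, Finset.sum_insert hl]
    exact HasDegree.add (h l) ih

/-- The intersection number of two correspondences. -/
lemma exists_pair (a b : EndF C Y) (i l : I) :
    ∃ q : ℚ, HasDegree C (mat a i l * tp C (mat b l i)) q := exists_degree _

/-- The trace of a composition as a sum of intersection numbers. -/
lemma trF_mul (a b : EndF C Y) {q : I → I → ℚ}
    (hq : ∀ i l, HasDegree C (mat a i l * tp C (mat b l i)) (q i l)) :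
    trF hne Y (b * a) = ∑ i, ∑ l, q i l := by
  rw [trF_apply]
  apply Finset.sum_congr rfl
  intro i _
  have h1 := tr1_spec (hne := hne) (b * a) i
  rw [mat_mul, val_comp] at h1
  have h2 : HasDegree C (∑ l, C.push (fst (Y i) (Y l))
      (val C (mat a) (ptPull (fst (Y i) (Y l)) ⟨i, 𝟙 (Y i)⟩) ⟨l, snd (Y i) (Y l)⟩ *
        val C (mat b) ⟨l, snd (Y i) (Y l)⟩ (ptPull (fst (Y i) (Y l)) ⟨i, 𝟙 (Y i)⟩)))
      (∑ l, q i l) := by
    apply HasDegree.sum'
    intro l
    have h3 := hasDegree_push (fst (Y i) (Y l)) (hq i l)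
    have e1 : val C (mat a) (ptPull (fst (Y i) (Y l)) ⟨i, 𝟙 (Y i)⟩) ⟨l, snd (Y i) (Y l)⟩ =
        mat a i l := by
      have h4 : C.pull (Obj.lift (fst (Y i) (Y l) ≫ 𝟙 (Y i)) (snd (Y i) (Y l))) (mat a i l) =
          mat a i l := by
        rw [Category.comp_id, lift_eta, C.pull_id]
      exact h4
    have e2 : val C (mat b) ⟨l, snd (Y i) (Y l)⟩ (ptPull (fst (Y i) (Y l)) ⟨i, 𝟙 (Y i)⟩) =
        tp C (mat b l i) := by
      have h4 : C.pull (Obj.lift (snd (Y i) (Y l)) (fst (Y i) (Y l) ≫ 𝟙 (Y i))) (mat b l i) =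
          tp C (mat b l i) := by
        rw [Category.comp_id]
        rfl
      exact h4
    rw [e1, e2]
    exact h3
  exact hasDegree_uniq (hne (Y i)) h1 h2

lemma tp_hasDegree' {X Z : 𝒱.Obj} {z : C.A (X.prod Z)} {q : ℚ} (h : HasDegree C z q) :
    HasDegree C (tp C z) q := by
  have h1 := hasDegree_push (sw X Z) h
  rwa [← pull_iso C (sw Z X) (sw X Z) sw_sw sw_sw] at h1

lemma trF_comm (a b : EndF C Y) : trF hne Y (a * b) = trF hne Y (b * a) := by
  choose q hq using fun i l => exists_pair b a i l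
  rw [trF_mul (hne := hne) b a hq, trF_mul (hne := hne) a b (q := fun i l => q l i),
    Finset.sum_comm]
  intro i l
  have h := tp_hasDegree' (hq l i)
  have e : tp C (mat b l i * tp C (mat a i l)) = mat a i l * tp C (mat b l i) := by
    have h1 : tp C (mat b l i * tp C (mat a i l)) = tp C (mat b l i) * tp C (tp C (mat a i l)) :=
      map_mul _ _ _
    rw [h1, tp_tp, ch_comm C]
  rwa [e] at h

/-! ### The contractions -/

/-- The family of the determinants. -/
noncomputable def grF (s : Bool) {n : ℕ} (a : Fin n → EndF C Y) : Fam C Y n :=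
  fun W x y => gF (W := W) s (fun i => mat (a i)) x y

/-- The family of the values of a correspondence. -/
noncomputable def vlF (a : EndF C Y) : Fam C Y 1 := fun _ x y => val C (mat a) (x 0) (y 0)

lemma conL_grF (s : Bool) {n : ℕ} (a : Fin (n + 1) → EndF C Y) :
    conL C Y n (grF s a) = trF hne Y (a 0) • grF s (fun i => a i.succ) +
      eta s • ∑ i, grF s (Function.update (fun i => a i.succ) i (a 0 * a i.succ)) := by
  funext W x y
  have h := push_gF (W := W) s (fun i => mat (a i)) x y (fun l => tr1_spec (hne := hne) (a 0) l)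
  rw [← trF_apply] at h
  have h1 : ∀ i : Fin n, (fun j => mat (Function.update (fun i => a i.succ) i
      (a 0 * a i.succ) j)) = Function.update (fun i => mat (a i.succ)) i
        (compF C (mat (a i.succ)) (mat (a 0))) := by
    intro i
    funext j
    by_cases hj : j = i
    · subst hj
      rw [Function.update_self, Function.update_self, mat_mul]
    · rw [Function.update_of_ne hj, Function.update_of_ne hj]
  rw [Pi.add_apply, Pi.add_apply, Pi.add_apply, Pi.smul_apply, Pi.smul_apply, Pi.smul_apply,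
    Pi.smul_apply, Pi.smul_apply, Pi.smul_apply, Finset.sum_apply, Finset.sum_apply,
    Finset.sum_apply]
  have h2 : ∀ i : Fin n, grF s (Function.update (fun i => a i.succ) i (a 0 * a i.succ)) W x y =
      gF s (Function.update (fun i => mat (a i.succ)) i
        (compF C (mat (a i.succ)) (mat (a 0)))) x y := by
    intro i
    rw [← h1]
    rfl
  rw [Finset.sum_congr rfl (fun i _ => h2 i)]
  exact h

/-- `vlF` as a linear map. -/
noncomputable def vlL : EndF C Y →ₗ[ℚ] Fam C Y 1 where
  toFun := vlF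
  map_add' a b := by
    funext W x y
    exact map_add _ _ _
  map_smul' q a := by
    funext W x y
    exact map_smul _ _ _

/-- The contraction of all but one pair of points. -/
lemma iterL_grF (s : Bool) (n : ℕ) (a : Fin (n + 1) → EndF C Y) :
    iterL C Y n (grF s a) = vlL (K (trF hne Y) (eta s) n a) := by
  induction n with
  | zero =>
    funext W x y
    exact gF_one s _ x y
  | succ n ih =>
    rw [iterL, LinearMap.comp_apply, conL_grF (hne := hne), map_add, map_smul, map_smul, map_sum,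
      K_succ, map_add, map_smul, map_smul, map_sum, ih]
    congr 2
    exact Finset.sum_congr rfl (fun i _ => ih _)

/-- The contraction of all pairs of points. -/
lemma iterL0_grF (s : Bool) (n : ℕ) (a : Fin n → EndF C Y) :
    iterL0 C Y n (grF s a) = F (trF hne Y) (eta s) n a • (fun _ _ _ => 1 : Fam C Y 0) := by
  induction n with
  | zero =>
    rw [F, one_smul]
    funext W x y
    exact gF_zero s _ x y
  | succ n ih =>
    rw [iterL0, LinearMap.comp_apply, conL_grF (hne := hne), map_add, map_smul, map_smul, map_sum,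
      F_succ, ih, Finset.sum_congr rfl (fun i _ => ih _), add_smul, mul_smul, mul_smul,
      Finset.sum_smul]

/-- The values determine the endomorphism. -/
lemma eq_zero_of_vlL {a : EndF C Y} (h : vlL a = 0) : a = 0 := by
  apply mat_inj
  funext i j
  have h1 := congrFun (congrFun (congrFun h ((Y i).prod (Y j))) (fun _ => ⟨i, fst (Y i) (Y j)⟩))
    (fun _ => ⟨j, snd (Y i) (Y j)⟩)
  have h2 : vlL a ((Y i).prod (Y j)) (fun _ => ⟨i, fst (Y i) (Y j)⟩)
      (fun _ => ⟨j, snd (Y i) (Y j)⟩) = mat a i j := by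
    change C.pull (Obj.lift (fst (Y i) (Y j)) (snd (Y i) (Y j))) (mat a i j) = _
    rw [lift_eta, C.pull_id]
  rw [h2] at h1
  exact h1

/-- The vanishing of the (anti)symmetrizations of `f` implies the algebraic condition. -/
lemma VanF.killed [Nonempty I] {s : Bool} {f : EndF C Y} {n : ℕ}
    (h : VanF s (Fin (n + 1)) (mat f)) : Killed (trF hne Y) (eta s) f n := by
  have key : ∀ a : Fin (n + 1) → EndF C Y, (∀ i, f * a i = a i) → grF s a = 0 := by
    intro a ha
    funext W x y
    have h2 := h.rows (fun i => mat (a i)) W x y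
    have h3 : (fun i => compF C (mat (a i)) (mat f)) = fun i => mat (a i) := by
      funext i
      rw [← mat_mul, ha i]
    rw [h3] at h2
    exact h2
  constructor
  · intro a ha
    have h1 := iterL_grF (hne := hne) s n a
    rw [key a ha, map_zero] at h1
    exact eq_zero_of_vlL h1.symm
  · intro a ha
    by_contra hF
    have h1 := iterL0_grF (hne := hne) s (n + 1) a
    rw [key a ha, map_zero] at h1
    obtain ⟨i⟩ := ‹Nonempty I›
    have h2 := congrFun (congrFun (congrFun h1 (Y i)) Fin.elim0) Fin.elim0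
    have h3 : (0 : C.A (Y i)) = F (trF hne Y) (eta s) (n + 1) a • (1 : C.A (Y i)) := h2
    exact hne (Y i) ((smul_eq_zero.1 h3.symm).resolve_left hF)

end Pool.Agent.Q263.NCK
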