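import Pool.Agent.TH829.Kim.Defs

/-!
# Noncommutative motives of families of varieties: definitions
-/

open CategoryTheory AlgebraicGeometry

universe u v w

namespace Pool.Agent.Q263.NCK

open Pool.Agent.H914 Pool.Agent.H914.VarClass Pool.Agent.H914.VarClass.Obj Pool.Agent.W492.BB
  Pool.Agent.W550.Corr Pool.Agent.TH133 Pool.Agent.TH829.Prime Pool.Agent.TH829.Kim

variable {k : Type u} [Field k] {𝒱 : VarClass k}

/-- The morphisms `⊕ U(X i) → ⊕ U(Y j)` of noncommutative motives: matrices of correspondences of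
arbitrary degree, `K_0(X i × Y j)_ℚ` being identified with `CH^*(X i × Y j)_ℚ`. -/
abbrev HomF (C : TheoryData.{u, v, 0} 𝒱 ℚ) {I J : Type} (X : I → 𝒱.Obj) (Y : J → 𝒱.Obj) : Type v :=
  ∀ i j, C.A ((X i).prod (Y j))

/-- The composition (matrix product), first `a` and then `b`. -/
noncomputable def compF (C : TheoryData.{u, v, 0} 𝒱 ℚ) {I J L : Type} [Fintype J] {X : I → 𝒱.Obj}
    {Y : J → 𝒱.Obj} {Z : L → 𝒱.Obj} (a : HomF C X Y) (b : HomF C Y Z) : HomF C X Z :=
  fun i l => ∑ j, C.comp (a i j) (b j l)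

/-- The identity of `⊕ U(Y i)`: the matrix with the classes of the diagonals on its diagonal. -/
noncomputable def oneF (C : TheoryData.{u, v, 0} 𝒱 ℚ) {I : Type} [DecidableEq I] (Y : I → 𝒱.Obj) :
    HomF C Y Y := fun i => Pi.single i (dg C (Y i))

/-- The points of `⨿ Y i` with values in `W`. -/
abbrev Pt {I : Type} (Y : I → 𝒱.Obj) (W : 𝒱.Obj) : Type _ := Σ i : I, (W ⟶ Y i)

/-- The value of the matrix `a` at a pair of points. -/
noncomputable def val (C : TheoryData.{u, v, 0} 𝒱 ℚ) {I J : Type} {X : I → 𝒱.Obj} {Y : J → 𝒱.Obj}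
    {W : 𝒱.Obj} (a : HomF C X Y) (x : Pt X W) (y : Pt Y W) : C.A W :=
  C.up (Obj.lift x.2 y.2) (a x.1 y.1)

/-- The class `∑_σ sign(σ) p(x_1, y_{σ 1}) ⋯ p(x_n, y_{σ n})` on `W`. The family of these classes, for
all points, is zero if and only if the exterior power `Λ^n` of the noncommutative motive
`(⊕ U(Y i), p)` is zero. -/
noncomputable def altF (C : TheoryData.{u, v, 0} 𝒱 ℚ) {I : Type} {Y : I → 𝒱.Obj} {W : 𝒱.Obj} {n : ℕ}
    (p : HomF C Y Y) (x y : Fin n → Pt Y W) : C.A W :=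
  ∑ σ : Equiv.Perm (Fin n), (Equiv.Perm.sign σ : ℤ) •
    (List.ofFn fun i => val C p (x i) (y (σ i))).prod

/-- The class `∑_σ p(x_1, y_{σ 1}) ⋯ p(x_n, y_{σ n})` on `W`. The family of these classes, for
all points, is zero if and only if the symmetric power `Sym^n` of the noncommutative motive
`(⊕ U(Y i), p)` is zero. -/
noncomputable def symF (C : TheoryData.{u, v, 0} 𝒱 ℚ) {I : Type} {Y : I → 𝒱.Obj} {W : 𝒱.Obj} {n : ℕ}
    (p : HomF C Y Y) (x y : Fin n → Pt Y W) : C.A W :=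
  ∑ σ : Equiv.Perm (Fin n), (List.ofFn fun i => val C p (x i) (y (σ i))).prod

/-- The noncommutative motive `(⊕ U(Y i), p)`, the image of the idempotent `p`, is Kimura-finite:
`p = e + f` with orthogonal idempotents `e` and `f` such that some exterior power of
`(⊕ U(Y i), e)` and some symmetric power of `(⊕ U(Y i), f)` vanish. -/
def IsNCKimuraFinite (C : TheoryData.{u, v, 0} 𝒱 ℚ) {I : Type} [Fintype I] (Y : I → 𝒱.Obj)
    (p : HomF C Y Y) : Prop :=
  ∃ e f : HomF C Y Y, e + f = p ∧ compF C e e = e ∧ compF C f f = f ∧ compF C e f = 0 ∧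
    compF C f e = 0 ∧
    (∃ n : ℕ, 1 ≤ n ∧ ∀ (W : 𝒱.Obj) (x y : Fin n → Pt Y W), altF C e x y = 0) ∧
    (∃ n : ℕ, 1 ≤ n ∧ ∀ (W : 𝒱.Obj) (x y : Fin n → Pt Y W), symF C f x y = 0)

/-- The noncommutative motive `U(X)` is Kimura-finite: the diagonal is the sum of two orthogonal
idempotent self-correspondences of arbitrary degree, the first even and the second odd. -/
def IsNCKimura (C : TheoryData.{u, v, 0} 𝒱 ℚ) (X : 𝒱.Obj) : Prop :=
  ∃ e : C.A (X.prod X), C.comp e e = e ∧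
    (∃ n : ℕ, 1 ≤ n ∧ ∀ (W : 𝒱.Obj) (x y : Fin n → (W ⟶ X)), altPower C e x y = 0) ∧
    (∃ n : ℕ, 1 ≤ n ∧ ∀ (W : 𝒱.Obj) (x y : Fin n → (W ⟶ X)), symPower C (dg C X - e) x y = 0)

end Pool.Agent.Q263.NCK
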