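import Pool.Agent.Q263.NCK.Sum

/-!
# Kimura-finiteness of noncommutative motives of geometric origin
-/

open CategoryTheory AlgebraicGeometry

universe u v w

namespace Pool.Agent.Q263.NCK

open Pool.Agent.H914 Pool.Agent.H914.VarClass Pool.Agent.H914.VarClass.Obj Pool.Agent.W492.BB
  Pool.Agent.W550.Corr Pool.Agent.TH133 Pool.Agent.TH829.Prime Pool.Agent.TH829.Kim

set_option linter.unusedSectionVars false

variable {k : Type u} [Field k] {𝒱 : VarClass k}

variable {C : TheoryData.{u, v, 0} 𝒱 ℚ} [hC : IsChowProj C] {W : 𝒱.Obj}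

include hC

section conv

variable {I : Type} [Fintype I] {Y : I → 𝒱.Obj}

lemma altF_eq {n : ℕ} (p : HomF C Y Y) (x y : Fin n → Pt Y W) :
    altF C p x y = gF true (fun _ => p) x y := by
  rw [altF, gF]
  apply Finset.sum_congr rfl
  intro σ _
  rw [show wt true σ = (Equiv.Perm.sign σ : ℤ) from rfl]
  congr 1
  exact List.prod_ofFn

lemma symF_eq {n : ℕ} (p : HomF C Y Y) (x y : Fin n → Pt Y W) :
    symF C p x y = gF false (fun _ => p) x y := by
  rw [symF, gF]
  apply Finset.sum_congr rfl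
  intro σ _
  rw [show wt false σ = 1 from rfl, one_smul]
  exact List.prod_ofFn

lemma vanF_mono {s : Bool} {p : HomF C Y Y} {n m : ℕ} (h : n = m) (hv : VanF s (Fin n) p) :
    VanF s (Fin m) p := by
  subst h
  exact hv

end conv

section main

variable {I : Type} [Fintype I] [DecidableEq I] {Y : I → 𝒱.Obj}

/-- The splitting of an idempotent of a family of Kimura-finite varieties. -/
lemma exists_parts [Nonempty I] (hne : ∀ X : 𝒱.Obj, (1 : C.A X) ≠ 0)
    (hY : ∀ i, IsKimuraFinite C (ratFam C) (Y i)) {p : EndF C Y} (hp : p * p = p) :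
    ∃ (e f : EndF C Y) (n m : ℕ), e + f = p ∧ e * e = e ∧ f * f = f ∧ e * f = 0 ∧ f * e = 0 ∧
      VanF true (Fin (n + 1)) (mat e) ∧ VanF false (Fin (m + 1)) (mat f) := by
  have hex : ∀ i, ∃ e : EndF C (U1 (Y i)), e * e = e ∧
      ∃ n, VanF true (Fin (n + 1)) (mat e) ∧ ∃ m, VanF false (Fin (m + 1)) (mat (1 - e)) := by
    intro i
    obtain ⟨e, he, ⟨n, hE⟩, ⟨m, hO⟩⟩ :=
      (isNCKimura_iff (Y i)).1 ((isNCKimura_iff_isKimuraFinite hne (Y i)).2 (hY i))
    exact ⟨e, he, n, hE, m, hO⟩
  choose q hq n hn m hm using hex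
  have hE : diagF (Y := Y) q * diagF q = diagF q := by
    rw [diagF_mul]
    congr 1
    funext i
    exact hq i
  have h1 : VanF true (Fin (∑ i, (n i + 1) + 1)) (mat (diagF (Y := Y) q)) := VanF.diagF hn
  have h2 : VanF false (Fin (∑ i, (m i + 1) + 1)) (mat (1 - diagF (Y := Y) q)) := by
    rw [one_sub_diagF]
    exact VanF.diagF hm
  obtain ⟨e, f, u, v, u', v', s1, s2, s3, s4, s5, s6, s7⟩ := exists_split
    (tr := trF hne Y) trF_comm hE hp (n := ∑ i, (n i + 1)) (m := ∑ i, (m i + 1))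
    h1.killed h2.killed
  refine ⟨e, f, ∑ i, (n i + 1), ∑ i, (m i + 1), s1, s2, s3, s4, s5, ?_, ?_⟩
  · rw [s6]
    exact h1.conj
  · rw [s7]
    exact h2.conj

/-- All direct summands of sums of Kimura-finite noncommutative motives are Kimura-finite. -/
theorem summand (hne : ∀ X : 𝒱.Obj, (1 : C.A X) ≠ 0)
    (hY : ∀ i, IsKimuraFinite C (ratFam C) (Y i)) {p : HomF C Y Y} (hp : compF C p p = p) :
    IsNCKimuraFinite C Y p := by
  rcases isEmpty_or_nonempty I with hI | hI
  · refine ⟨0, 0, ?_, ?_, ?_, ?_, ?_, ⟨1, le_rfl, fun W x _ => hI.elim (x 0).1⟩,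
      ⟨1, le_rfl, fun W x _ => hI.elim (x 0).1⟩⟩ <;>
    · funext i
      exact hI.elim i
  · obtain ⟨e, f, n, m, s1, s2, s3, s4, s5, s6, s7⟩ := exists_parts hne hY
      (p := ofMat p) (mat_inj hp)
    refine ⟨mat e, mat f, s1, s2, s3, s5, s4, ⟨n + 1, by omega, fun W x y => ?_⟩,
      ⟨m + 1, by omega, fun W x y => ?_⟩⟩
    · rw [altF_eq]
      exact s6 W x y
    · rw [symF_eq]
      exact s7 W x y

/-- A variety whose noncommutative motive is a direct summand of a sum of noncommutative motives of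
Kimura-finite varieties is Kimura-finite. -/
theorem of_summand (hne : ∀ X : 𝒱.Obj, (1 : C.A X) ≠ 0)
    (hY : ∀ i, IsKimuraFinite C (ratFam C) (Y i)) {X : 𝒱.Obj} (a : ∀ i, C.A (X.prod (Y i)))
    (b : ∀ i, C.A ((Y i).prod X)) (hab : ∑ i, C.comp (a i) (b i) = dg C X) :
    IsKimuraFinite C (ratFam C) X := by
  set A : HomF C (U1 X) Y := fun _ i => a i with hA
  set B : HomF C Y (U1 X) := fun i _ => b i with hB
  have hAB : compF C A B = mat (1 : EndF C (U1 X)) := by
    funext i j
    rw [compF_apply]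
    have h1 : mat (1 : EndF C (U1 X)) i j = dg C X := by
      have h2 : j = i := Subsingleton.elim _ _
      subst h2
      rw [mat_one, oneF, Pi.single_eq_same]
    rw [h1]
    exact hab
  have hne' : Nonempty I := by
    by_contra hI
    rw [not_nonempty_iff] at hI
    rw [Fintype.sum_empty] at hab
    -- the diagonal is zero
    have h1 := act_dg C (X := X) (1 : C.A X)
    rw [← hab, C.act_zero] at h1
    exact hne X h1.symm
  have hone : ∀ Z : HomF C (U1 X) Y, compF C (mat (1 : EndF C (U1 X))) Z = Z := fun Z =>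
    oneF_compF Z
  have hp : compF C (compF C B A) (compF C B A) = compF C B A := by
    rw [compF_assoc, ← compF_assoc A B A, hAB, hone]
  obtain ⟨e, f, n, m, s1, s2, s3, s4, s5, s6, s7⟩ := exists_parts hne hY
    (p := ofMat (compF C B A)) (mat_inj hp)
  have s1' : mat e + mat f = compF C B A := s1
  have s4' : compF C (mat f) (mat e) = 0 := s4
  have s5' : compF C (mat e) (mat f) = 0 := s5
  have s2' : compF C (mat e) (mat e) = mat e := s2
  rw [← isNCKimura_iff_isKimuraFinite hne, isNCKimura_iff]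
  set E : EndF C (U1 X) := ofMat (compF C (compF C A (mat e)) B) with hE
  set F' : EndF C (U1 X) := ofMat (compF C (compF C A (mat f)) B) with hF
  have h1 : E + F' = 1 := by
    apply mat_inj
    rw [mat_add, hE, hF, mat_ofMat, mat_ofMat, ← add_compF, ← compF_add, s1', ← compF_assoc A B A,
      hAB, hone, hAB]
  have h2 : F' * E = 0 := by
    apply mat_inj
    rw [mat_mul, hE, hF, mat_ofMat, mat_ofMat, mat_zero]
    have h3 : compF C (compF C (compF C A (mat e)) B) (compF C (compF C A (mat f)) B) =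
        compF C (compF C A (compF C (compF C (mat e) (compF C B A)) (mat f))) B := by
      simp only [compF_assoc]
    rw [h3, ← s1', compF_add, s2', s5', add_zero, s5', compF_zero, zero_compF]
  have h4 : (1 : EndF C (U1 X)) - E = F' := by rw [← h1]; abel
  refine ⟨E, ?_, ⟨n, ?_⟩, ⟨m, ?_⟩⟩
  · have h5 : (E + F') * E = E := by rw [h1, one_mul]
    rwa [add_mul, h2, add_zero] at h5
  · rw [hE, mat_ofMat]
    exact s6.comp A B
  · rw [h4, hF, mat_ofMat]
    exact s7.comp A B

end main

/-- The noncommutative motive of `X` with the idempotent `1`. -/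
lemma isNCKimura_of_one {X : 𝒱.Obj} (h : IsNCKimuraFinite C (U1 X) (oneF C (U1 X))) :
    IsNCKimura C X := by
  obtain ⟨e, f, h1, h2, -, -, -, ⟨n, hn, h3⟩, ⟨m, hm, h4⟩⟩ := h
  obtain ⟨n, rfl⟩ := Nat.exists_eq_add_of_le' hn
  obtain ⟨m, rfl⟩ := Nat.exists_eq_add_of_le' hm
  rw [isNCKimura_iff]
  refine ⟨ofMat e, mat_inj h2, ⟨n, fun W x y => ?_⟩, ⟨m, fun W x y => ?_⟩⟩
  · have := h3 W x y
    rw [altF_eq] at this
    exact this
  · have h5 : mat (1 - ofMat e : EndF C (U1 X)) = f := by
      rw [mat_sub, mat_ofMat, mat_one, ← h1]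
      abel
    rw [h5]
    have := h4 W x y
    rw [symF_eq] at this
    exact this

end Pool.Agent.Q263.NCK
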