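import Pool.Agent.Q263.NCK.Defs
import Pool.Agent.TH829.Kim.Main

/-!
# The ring of endomorphisms of a family
-/

open CategoryTheory AlgebraicGeometry

universe u v w

namespace Pool.Agent.Q263.NCK

open Pool.Agent.H914 Pool.Agent.H914.VarClass Pool.Agent.H914.VarClass.Obj Pool.Agent.W492.BB
  Pool.Agent.W550.Corr Pool.Agent.TH133 Pool.Agent.TH829.Prime Pool.Agent.TH829.Kim

set_option linter.unusedSectionVars false

variable {k : Type u} [Field k] {𝒱 : VarClass k}

section comp

variable {C : TheoryData.{u, v, 0} 𝒱 ℚ} [hC : IsChowProj C]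
  {I J L M : Type} [Fintype I] [Fintype J] [Fintype L] [Fintype M]
  {X : I → 𝒱.Obj} {Y : J → 𝒱.Obj} {Z : L → 𝒱.Obj} {T : M → 𝒱.Obj}

lemma compF_apply (a : HomF C X Y) (b : HomF C Y Z) (i : I) (l : L) :
    compF C a b i l = ∑ j, C.comp (a i j) (b j l) := rfl

lemma add_compF (a a' : HomF C X Y) (b : HomF C Y Z) :
    compF C (a + a') b = compF C a b + compF C a' b := by
  funext i l
  simp only [compF_apply, Pi.add_apply, add_comp, Finset.sum_add_distrib]

lemma compF_add (a : HomF C X Y) (b b' : HomF C Y Z) :
    compF C a (b + b') = compF C a b + compF C a b' := by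
  funext i l
  simp only [compF_apply, Pi.add_apply, comp_add, Finset.sum_add_distrib]

lemma zero_compF (b : HomF C Y Z) : compF C (0 : HomF C X Y) b = 0 := by
  funext i l
  simp only [compF_apply, Pi.zero_apply, zero_comp, Finset.sum_const_zero]

lemma compF_zero (a : HomF C X Y) : compF C a (0 : HomF C Y Z) = 0 := by
  funext i l
  simp only [compF_apply, Pi.zero_apply, comp_zero, Finset.sum_const_zero]

lemma smul_compF (q : ℚ) (a : HomF C X Y) (b : HomF C Y Z) :
    compF C (q • a) b = q • compF C a b := by
  funext i l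
  simp only [compF_apply, Pi.smul_apply, Finset.smul_sum]
  refine Finset.sum_congr rfl fun j _ => ?_
  rw [← compL_apply, map_smul, LinearMap.smul_apply, compL_apply]

lemma compF_smul (q : ℚ) (a : HomF C X Y) (b : HomF C Y Z) :
    compF C a (q • b) = q • compF C a b := by
  funext i l
  simp only [compF_apply, Pi.smul_apply, Finset.smul_sum]
  refine Finset.sum_congr rfl fun j _ => ?_
  rw [← compL_apply, map_smul, compL_apply]

include hC

lemma compF_assoc (a : HomF C X Y) (b : HomF C Y Z) (c : HomF C Z T) :
    compF C (compF C a b) c = compF C a (compF C b c) := by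
  funext i m
  simp only [compF_apply, sum_comp, comp_sum, comp_assoc]
  exact Finset.sum_comm

lemma oneF_compF [DecidableEq I] (a : HomF C X Y) : compF C (oneF C X) a = a := by
  funext i j
  rw [compF_apply, Finset.sum_eq_single i]
  · rw [oneF, Pi.single_eq_same, dg_comp]
  · intro l _ hl
    rw [oneF, Pi.single_eq_of_ne hl, zero_comp]
  · intro h
    exact absurd (Finset.mem_univ i) h

lemma compF_oneF [DecidableEq J] (a : HomF C X Y) : compF C a (oneF C Y) = a := by
  funext i j
  rw [compF_apply, Finset.sum_eq_single j]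
  · rw [oneF, Pi.single_eq_same, comp_dg]
  · intro l _ hl
    rw [oneF, Pi.single_eq_of_ne hl.symm, comp_zero]
  · intro h
    exact absurd (Finset.mem_univ j) h

end comp

/-- The endomorphisms of the family `Y`. -/
def EndF (C : TheoryData.{u, v, 0} 𝒱 ℚ) {I : Type} (Y : I → 𝒱.Obj) : Type v := HomF C Y Y

noncomputable instance (C : TheoryData.{u, v, 0} 𝒱 ℚ) {I : Type} (Y : I → 𝒱.Obj) :
    AddCommGroup (EndF C Y) := inferInstanceAs (AddCommGroup (HomF C Y Y))

noncomputable instance (C : TheoryData.{u, v, 0} 𝒱 ℚ) {I : Type} (Y : I → 𝒱.Obj) :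
    Module ℚ (EndF C Y) := inferInstanceAs (Module ℚ (HomF C Y Y))

section ring

variable (C : TheoryData.{u, v, 0} 𝒱 ℚ) [hC : IsChowProj C] {I : Type} [Fintype I] [DecidableEq I]
  (Y : I → 𝒱.Obj)

/-- The ring of endomorphisms, with the composition of operators as product. -/
noncomputable instance : Ring (EndF C Y) :=
  { (inferInstance : AddCommGroup (EndF C Y)) with
    mul := fun a b => compF C (X := Y) (Y := Y) (Z := Y) b a
    one := oneF C Y
    mul_assoc := fun a b c => (compF_assoc (X := Y) (Y := Y) (Z := Y) (T := Y) c b a).symm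
    one_mul := fun a => compF_oneF (X := Y) (Y := Y) a
    mul_one := fun a => oneF_compF (X := Y) (Y := Y) a
    left_distrib := fun a b c => add_compF (X := Y) (Y := Y) (Z := Y) b c a
    right_distrib := fun a b c => compF_add (X := Y) (Y := Y) (Z := Y) c a b
    zero_mul := fun a => compF_zero (X := Y) (Y := Y) (Z := Y) a
    mul_zero := fun a => zero_compF (X := Y) (Y := Y) (Z := Y) a }

variable {C Y}

/-- The matrix of an endomorphism. -/
def mat (a : EndF C Y) : HomF C Y Y := a

/-- The endomorphism with a given matrix. -/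
def ofMat (a : HomF C Y Y) : EndF C Y := a

omit hC [Fintype I] [DecidableEq I] in
@[simp] lemma mat_ofMat (a : HomF C Y Y) : mat (ofMat a) = a := rfl
omit hC [Fintype I] [DecidableEq I] in
@[simp] lemma ofMat_mat (a : EndF C Y) : ofMat (mat a) = a := rfl

lemma mat_mul (a b : EndF C Y) : mat (a * b) = compF C (mat b) (mat a) := rfl
lemma mat_one : mat (1 : EndF C Y) = oneF C Y := rfl
lemma mat_add (a b : EndF C Y) : mat (a + b) = mat a + mat b := rfl
lemma mat_sub (a b : EndF C Y) : mat (a - b) = mat a - mat b := rfl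
lemma mat_zero : mat (0 : EndF C Y) = 0 := rfl
lemma mat_smul (q : ℚ) (a : EndF C Y) : mat (q • a) = q • mat a := rfl
omit hC [Fintype I] [DecidableEq I] in
lemma mat_inj {a b : EndF C Y} (h : mat a = mat b) : a = b := h

noncomputable instance : Algebra ℚ (EndF C Y) :=
  Algebra.ofModule (fun q a b => compF_smul (X := Y) (Y := Y) (Z := Y) q b a)
    (fun q a b => smul_compF (X := Y) (Y := Y) (Z := Y) q b a)

end ring

end Pool.Agent.Q263.NCK
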