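import Pool.Agent.Q263.NCK.Contr

/-!
# The grading automorphisms
-/

open CategoryTheory AlgebraicGeometry

universe u v w

namespace Pool.Agent.Q263.NCK

open Pool.Agent.H914 Pool.Agent.H914.VarClass Pool.Agent.H914.VarClass.Obj Pool.Agent.W492.BB
  Pool.Agent.W550.Corr Pool.Agent.TH133 Pool.Agent.TH829.Prime Pool.Agent.TH829.Kim

set_option linter.unusedSectionVars false

variable {k : Type u} [Field k] {𝒱 : VarClass k}

section one

variable {C : TheoryData.{u, v, 0} 𝒱 ℚ} [hC : IsChowProj C] {X Z W V : 𝒱.Obj}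

include hC

/-- The decomposition into homogeneous components. -/
noncomputable def decE (W : 𝒱.Obj) : DirectSum ℤ (fun i => C.gr W i) ≃ₗ[ℚ] C.A W :=
  LinearEquiv.ofBijective (DirectSum.coeLinearMap (C.gr W)) (C.isInternal W)

lemma decE_symm {i : ℤ} {x : C.A W} (hx : x ∈ C.gr W i) :
    (decE W).symm x = DirectSum.lof ℚ ℤ (fun i => C.gr W i) i ⟨x, hx⟩ := by
  rw [LinearEquiv.symm_apply_eq]
  rw [decE, LinearEquiv.ofBijective_apply, DirectSum.coeLinearMap_lof]

/-- The component of codimension `i`. -/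
noncomputable def cmp (i : ℤ) : C.A W →ₗ[ℚ] C.A W :=
  (C.gr W i).subtype ∘ₗ DirectSum.component ℚ ℤ (fun i => C.gr W i) i ∘ₗ
    (decE W).symm.toLinearMap

lemma cmp_self {i : ℤ} {x : C.A W} (hx : x ∈ C.gr W i) : cmp i x = x := by
  rw [cmp, LinearMap.comp_apply, LinearMap.comp_apply, LinearEquiv.coe_coe, decE_symm hx,
    DirectSum.component.lof_self]
  rfl

lemma cmp_ne {i j : ℤ} (hij : i ≠ j) {x : C.A W} (hx : x ∈ C.gr W i) : cmp j x = 0 := by
  rw [cmp, LinearMap.comp_apply, LinearMap.comp_apply, LinearEquiv.coe_coe, decE_symm hx,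
    DirectSum.component.of, dif_neg hij, map_zero]

lemma cmp_mem (i : ℤ) (x : C.A W) : cmp i x ∈ C.gr W i := by
  rw [cmp, LinearMap.comp_apply]
  exact Subtype.coe_prop _

/-- Multiplication by `t ^ i` in codimension `i`. -/
noncomputable def sc (t : ℚ) : C.A W →ₗ[ℚ] C.A W :=
  DirectSum.toModule ℚ ℤ (C.A W) (fun i => (t ^ i) • (C.gr W i).subtype) ∘ₗ
    (decE W).symm.toLinearMap

lemma sc_mem (t : ℚ) {i : ℤ} {x : C.A W} (hx : x ∈ C.gr W i) : sc t x = t ^ i • x := by
  rw [sc, LinearMap.comp_apply, LinearEquiv.coe_coe, decE_symm hx, DirectSum.toModule_lof]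
  rfl

lemma sc_one (t : ℚ) : sc t (1 : C.A W) = 1 := by
  rw [sc_mem t (C.one_mem W), zpow_zero, one_smul]

lemma sc_mul {t : ℚ} (ht : t ≠ 0) (x y : C.A W) : sc t (x * y) = sc t x * sc t y := by
  have h1 : ∀ i, ∀ x ∈ C.gr W i, ∀ y : C.A W, sc t (x * y) = sc t x * sc t y := by
    intro i x hx y
    have h2 : sc t ∘ₗ LinearMap.mulLeft ℚ x = LinearMap.mulLeft ℚ (sc t x) ∘ₗ sc t := by
      apply ext_grC
      intro j y hy
      simp only [LinearMap.comp_apply, LinearMap.mulLeft_apply]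
      rw [sc_mem t (C.mul_mem hx hy), sc_mem t hx, sc_mem t hy, smul_mul_smul_comm,
        zpow_add₀ ht]
    exact LinearMap.congr_fun h2 y
  have h3 : sc t ∘ₗ LinearMap.mulRight ℚ y = LinearMap.mulRight ℚ (sc t y) ∘ₗ sc t := by
    apply ext_grC
    intro i x hx
    simp only [LinearMap.comp_apply, LinearMap.mulRight_apply]
    exact h1 i x hx y
  exact LinearMap.congr_fun h3 x

lemma sc_pull (t : ℚ) (f : X ⟶ Z) (x : C.A Z) : sc t (C.pull f x) = C.pull f (sc t x) := by
  have h : sc t ∘ₗ (C.pull f).toLinearMap = (C.pull f).toLinearMap ∘ₗ sc t := by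
    apply ext_grC
    intro i x hx
    simp only [LinearMap.comp_apply, AlgHom.toLinearMap_apply]
    rw [sc_mem t (C.pull_mem f hx), sc_mem t hx, map_smul]
  exact LinearMap.congr_fun h x

lemma sc_push {t : ℚ} (ht : t ≠ 0) (f : X ⟶ Z) (x : C.A X) :
    sc t (C.push f x) = t ^ ((Z.dim : ℤ) - X.dim) • C.push f (sc t x) := by
  have h : sc t ∘ₗ C.push f = t ^ ((Z.dim : ℤ) - X.dim) • (C.push f ∘ₗ sc t) := by
    apply ext_grC
    intro i x hx
    rw [LinearMap.comp_apply, LinearMap.smul_apply, LinearMap.comp_apply]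
    rw [sc_mem t (C.push_mem f hx), sc_mem t hx, map_smul, smul_smul, ← zpow_add₀ ht]
    congr 2
    ring
  exact LinearMap.congr_fun h x

/-- The grading automorphism on correspondences. -/
noncomputable def ph (t : ℚ) (a : C.A (X.prod Z)) : C.A (X.prod Z) :=
  t ^ (-(X.dim : ℤ)) • sc t a

lemma ph_comp {t : ℚ} (ht : t ≠ 0) {Y : 𝒱.Obj} (a : C.A (X.prod Y)) (b : C.A (Y.prod Z)) :
    ph t (C.comp a b) = C.comp (ph t a) (ph t b) := by
  rw [ph, ph, ph, TheoryData.comp, TheoryData.comp, sc_push ht, sc_mul ht, sc_pull, sc_pull,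
    map_smul, map_smul, smul_mul_smul_comm, map_smul, smul_smul, ← zpow_add₀ ht, ← zpow_add₀ ht]
  congr 2
  rw [dim_prod, dim_prod, dim_prod]
  push_cast
  ring

lemma ph_dg {t : ℚ} (ht : t ≠ 0) (X : 𝒱.Obj) : ph t (dg C X) = dg C X := by
  rw [ph, sc_mem t (dg_mem C X), smul_smul, ← zpow_add₀ ht, neg_add_cancel, zpow_zero, one_smul]

end one

section fam

variable {C : TheoryData.{u, v, 0} 𝒱 ℚ} [hC : IsChowProj C] {W : 𝒱.Obj}
  {I : Type} [Fintype I] [DecidableEq I] {Y : I → 𝒱.Obj}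

include hC

variable (C Y) in
/-- The grading automorphism of the ring of endomorphisms. -/
noncomputable def phR {t : ℚ} (ht : t ≠ 0) : EndF C Y →+* EndF C Y where
  toFun a := ofMat (fun i j => ph t (mat a i j))
  map_one' := by
    apply mat_inj
    funext i j
    rw [mat_ofMat, mat_one, oneF]
    by_cases h : j = i
    · subst h
      rw [Pi.single_eq_same, ph_dg ht]
    · rw [Pi.single_eq_of_ne h, ph, map_zero, smul_zero]
  map_mul' a b := by
    apply mat_inj
    funext i j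
    rw [mat_ofMat, mat_mul, mat_mul, compF_apply, compF_apply, ph, map_sum, Finset.smul_sum]
    apply Finset.sum_congr rfl
    intro l _
    exact ph_comp ht _ _
  map_zero' := by
    apply mat_inj
    funext i j
    rw [mat_ofMat, mat_zero, Pi.zero_apply, Pi.zero_apply, ph, map_zero, smul_zero]
  map_add' a b := by
    apply mat_inj
    funext i j
    rw [mat_ofMat, mat_add, mat_add, Pi.add_apply, Pi.add_apply, Pi.add_apply, Pi.add_apply,
      mat_ofMat, mat_ofMat, ph, map_add, smul_add]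
    rfl

lemma mat_phR {t : ℚ} (ht : t ≠ 0) (a : EndF C Y) (i j : I) :
    mat (phR C Y ht a) i j = ph t (mat a i j) := rfl

lemma VanF.phR {t : ℚ} (ht : t ≠ 0) {s : Bool} {n : ℕ} {a : EndF C Y}
    (h : VanF s (Fin n) (mat a)) : VanF s (Fin n) (mat (phR C Y ht a)) := by
  intro W x y
  have h1 : ∀ (x' y' : Pt Y W), val C (mat (NCK.phR C Y ht a)) x' y' =
      t ^ (-((Y x'.1).dim : ℤ)) • sc t (val C (mat a) x' y') := by
    intro x' y'
    rw [val, val, mat_phR, ph, TheoryData.up, TheoryData.up, map_smul, sc_pull]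
  have h2 : ∀ σ : Equiv.Perm (Fin n), ∏ i, val C (mat (NCK.phR C Y ht a)) (x i) (y (σ i)) =
      (∏ i, t ^ (-((Y (x i).1).dim : ℤ))) • sc t (∏ i, val C (mat a) (x i) (y (σ i))) := by
    intro σ
    simp only [h1]
    have h3 : ∀ S : Finset (Fin n), ∏ i ∈ S, t ^ (-((Y (x i).1).dim : ℤ)) •
        sc t (val C (mat a) (x i) (y (σ i))) =
        (∏ i ∈ S, t ^ (-((Y (x i).1).dim : ℤ))) • sc t (∏ i ∈ S, val C (mat a) (x i) (y (σ i))) := by
      intro S
      induction S using Finset.induction_on with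
      | empty => rw [Finset.prod_empty, Finset.prod_empty, Finset.prod_empty, sc_one, one_smul]
      | insert i S hi ih =>
        rw [Finset.prod_insert hi, Finset.prod_insert hi, Finset.prod_insert hi, ih, sc_mul ht,
          smul_mul_smul_comm]
    exact h3 Finset.univ
  rw [gF]
  simp only [h2]
  have h4 : ∀ σ : Equiv.Perm (Fin n), wt s σ • (∏ i, t ^ (-((Y (x i).1).dim : ℤ))) •
      sc t (∏ i, val C (mat a) (x i) (y (σ i))) =
      (∏ i, t ^ (-((Y (x i).1).dim : ℤ))) • sc t (wt s σ • ∏ i, val C (mat a) (x i) (y (σ i))) := by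
    intro σ
    rw [smul_comm, map_zsmul]
  simp only [h4]
  rw [← Finset.smul_sum, ← map_sum]
  have h5 := h W x y
  rw [gF] at h5
  rw [h5, map_zero, smul_zero]

/-- Homogeneous endomorphisms of weight `e`. -/
def IsHom (e : ℤ) (a : EndF C Y) : Prop := ∀ i j, mat a i j ∈ C.gr ((Y i).prod (Y j)) ((Y i).dim + e)

lemma IsHom.mul {e e' : ℤ} {a b : EndF C Y} (ha : IsHom e a) (hb : IsHom e' b) :
    IsHom (e + e') (a * b) := by
  intro i j
  rw [mat_mul, compF_apply]
  apply Submodule.sum_mem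
  intro l _
  have h := comp_mem C (hb i l) (ha l j)
  rwa [add_comm e' e] at h

lemma IsHom.phR {t : ℚ} (ht : t ≠ 0) {e : ℤ} {a : EndF C Y} (ha : IsHom e a) :
    NCK.phR C Y ht a = t ^ e • a := by
  apply mat_inj
  funext i j
  rw [mat_phR, ph, sc_mem t (ha i j), smul_smul, ← zpow_add₀ ht, neg_add_cancel_left]
  rfl

variable {hne : ∀ X : 𝒱.Obj, (1 : C.A X) ≠ 0}

lemma IsHom.tr {e : ℤ} {a : EndF C Y} (ha : IsHom e a) (he : e ≠ 0) : trF hne Y a = 0 := by
  rw [trF_apply]
  apply Finset.sum_eq_zero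
  intro l _
  have h1 := tr1_spec (hne := hne) a l
  have h2 : val C (mat a) ⟨l, 𝟙 (Y l)⟩ ⟨l, 𝟙 (Y l)⟩ ∈ C.gr (Y l) ((Y l).dim + e) :=
    C.pull_mem _ (ha l l)
  exact hasDegree_uniq (hne (Y l)) h1 (hasDegree_of_ne h2 (by omega))

/-- The component of weight `e`. -/
noncomputable def hc (e : ℤ) (a : EndF C Y) : EndF C Y :=
  ofMat (fun i j => cmp ((Y i).dim + e) (mat a i j))

lemma hc_isHom (e : ℤ) (a : EndF C Y) : IsHom e (hc e a) := fun _ _ => cmp_mem _ _

lemma hc_self {e : ℤ} {a : EndF C Y} (ha : IsHom e a) : hc e a = a := by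
  apply mat_inj
  funext i j
  exact cmp_self (ha i j)

lemma hc_ne {e e' : ℤ} (h : e ≠ e') {a : EndF C Y} (ha : IsHom e a) : hc e' a = 0 := by
  apply mat_inj
  funext i j
  exact cmp_ne (by omega) (ha i j)

/-- The component of weight `e` as a linear map. -/
noncomputable def hcL (e : ℤ) : EndF C Y →ₗ[ℚ] EndF C Y where
  toFun := hc e
  map_add' a b := by
    apply mat_inj
    funext i j
    exact map_add _ _ _
  map_smul' q a := by
    apply mat_inj
    funext i j
    exact map_smul _ _ _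

end fam

end Pool.Agent.Q263.NCK
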