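import Pool.Agent.Q263.NCK.Scale
import Pool.Agent.Q263.NCK.Split

/-!
# Noncommutative and commutative Kimura-finiteness of one variety
-/

open CategoryTheory AlgebraicGeometry

universe u v w

namespace Pool.Agent.Q263.NCK

open Pool.Agent.H914 Pool.Agent.H914.VarClass Pool.Agent.H914.VarClass.Obj Pool.Agent.W492.BB
  Pool.Agent.W550.Corr Pool.Agent.TH133 Pool.Agent.TH829.Prime Pool.Agent.TH829.Kim

set_option linter.unusedSectionVars false

variable {k : Type u} [Field k] {𝒱 : VarClass k}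

variable {C : TheoryData.{u, v, 0} 𝒱 ℚ} [hC : IsChowProj C] {W : 𝒱.Obj}

section general

variable {I : Type} [Fintype I] [DecidableEq I] {Y : I → 𝒱.Obj}

include hC

lemma VanF.conj {s : Bool} {n : ℕ} {a u v : EndF C Y} (h : VanF s (Fin n) (mat a)) :
    VanF s (Fin n) (mat (u * a * v)) := by
  rw [mat_mul, mat_mul, ← compF_assoc]
  exact h.comp _ _

lemma isHom_one : IsHom 0 (1 : EndF C Y) := by
  intro i j
  rw [mat_one, oneF, add_zero]
  by_cases h : j = i
  · subst h
    rw [Pi.single_eq_same]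
    exact dg_mem C _
  · rw [Pi.single_eq_of_ne h]
    exact Submodule.zero_mem _

variable (C Y) in
/-- The endomorphisms of weight zero. -/
noncomputable def deg0 : Subalgebra ℚ (EndF C Y) where
  carrier := {a | IsHom 0 a}
  mul_mem' {a b} ha hb := by
    have := IsHom.mul (hC := hC) ha hb
    rwa [add_zero] at this
  add_mem' {a b} ha hb i j := Submodule.add_mem _ (ha i j) (hb i j)
  algebraMap_mem' q := by
    rw [Algebra.algebraMap_eq_smul_one]
    intro i j
    exact Submodule.smul_mem _ q (isHom_one (C := C) i j)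

end general

/-- The family with one member. -/
abbrev U1 (X : 𝒱.Obj) : Unit → 𝒱.Obj := fun _ => X

variable {X : 𝒱.Obj}

include hC

lemma hom_induction {P : EndF C (U1 X) → Prop} (hz : P 0) (hadd : ∀ a b, P a → P b → P (a + b))
    (hh : ∀ e a, IsHom e a → P a) (a : EndF C (U1 X)) : P a := by
  have h1 : ∀ x : C.A (X.prod X), P (ofMat (fun _ _ => x)) := by
    intro x
    have h := span_grC (X.prod X) x
    induction h using Submodule.iSup_induction' with
    | mem i x hx =>
      apply hh (i - X.dim)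
      intro _ _
      rw [add_sub_cancel]
      exact hx
    | zero => exact hz
    | add x y _ _ h1 h2 => exact hadd _ _ h1 h2
  exact h1 (mat a () ())

variable {hne : ∀ X : 𝒱.Obj, (1 : C.A X) ≠ 0}

lemma tr_phR {t : ℚ} (ht : t ≠ 0) (a : EndF C (U1 X)) :
    trF hne (U1 X) (phR C (U1 X) ht a) = trF hne (U1 X) a := by
  induction a using hom_induction with
  | hz => rw [map_zero]
  | hadd a b ha hb => rw [map_add, map_add, map_add, ha, hb]
  | hh e a ha =>
    rw [ha.phR ht, map_smul]
    by_cases he : e = 0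
    · rw [he, zpow_zero, one_smul]
    · rw [ha.tr he, smul_zero]

/-- The components of an even idempotent with odd complement are numerically trivial in the
degrees different from zero. -/
lemma inRad_sub_hc {e : EndF C (U1 X)} (he : e * e = e) {n m : ℕ}
    (hE : VanF true (Fin (n + 1)) (mat e)) (hO : VanF false (Fin (m + 1)) (mat (1 - e))) :
    InRad (trF hne (U1 X)) (e - hc 0 e) := by
  have h2 : (2 : ℚ) ≠ 0 := two_ne_zero
  have hφ : ∀ γ, trF hne (U1 X) ((e - phR C (U1 X) h2 e) * γ) = 0 := by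
    intro γ
    refine tr_sub_mul (tr := trF hne (U1 X)) trF_comm he ?_ (n := n) (m := m) (n' := n) (m' := m)
      hE.killed hO.killed (hE.phR h2).killed ?_ γ
    · rw [← map_mul, he]
    · have h3 := (hO.phR h2).killed (hne := hne)
      rwa [map_sub, map_one] at h3
  have c1 : ∀ (w : ℤ), w ≠ 0 → ∀ γ : EndF C (U1 X), IsHom w γ → trF hne (U1 X) (e * γ) = 0 := by
    intro w hw γ hγ
    have h3 := hφ γ
    rw [sub_mul, map_sub] at h3
    have h4 := tr_phR (hne := hne) h2 (e * γ)
    rw [map_mul, hγ.phR h2, mul_smul_comm, map_smul] at h4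
    rw [← h4, smul_eq_mul] at h3
    have h5 : (2 : ℚ) ^ w ≠ 1 := by
      intro h6
      exact hw ((zpow_eq_one_iff_right₀ (by norm_num) (by norm_num)).1 h6)
    have h6 : ((2 : ℚ) ^ w - 1) * trF hne (U1 X) (phR C (U1 X) h2 e * γ) = 0 := by
      rw [sub_mul, one_mul]
      exact h3
    have h7 := (mul_eq_zero.1 h6).resolve_left (sub_ne_zero.2 h5)
    rw [← h4, h7, smul_zero]
  intro γ
  induction γ using hom_induction with
  | hz => rw [mul_zero, map_zero]
  | hadd a b ha hb => rw [mul_add, map_add, ha, hb, add_zero]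
  | hh w γ hγ =>
    by_cases hw : w = 0
    · subst hw
      -- all `a` instead of `e`
      have key : ∀ a : EndF C (U1 X), trF hne (U1 X) ((a - hc 0 a) * γ) = 0 := by
        intro a
        induction a using hom_induction with
        | hz =>
          have : hc 0 (0 : EndF C (U1 X)) = 0 := map_zero (hcL (C := C) (Y := U1 X) 0)
          rw [this, sub_zero, zero_mul, map_zero]
        | hadd a b ha hb =>
          have : hc 0 (a + b) = hc 0 a + hc 0 b := map_add (hcL (C := C) (Y := U1 X) 0) a b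
          rw [this, show a + b - (hc 0 a + hc 0 b) = (a - hc 0 a) + (b - hc 0 b) by abel, add_mul,
            map_add, ha, hb, add_zero]
        | hh e' a ha =>
          by_cases he' : e' = 0
          · subst he'
            rw [hc_self ha, sub_self, zero_mul, map_zero]
          · rw [hc_ne he' ha, sub_zero]
            exact (ha.mul hγ).tr (by rwa [add_zero])
      exact key e
    · rw [sub_mul, map_sub, c1 w hw γ hγ, ((hc_isHom 0 e).mul hγ).tr (by rwa [zero_add]), sub_zero]

/-- An even idempotent of arbitrary degree with odd complement can be replaced by one of degree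
zero. -/
theorem exists_deg0 (hne : ∀ X : 𝒱.Obj, (1 : C.A X) ≠ 0) {e : EndF C (U1 X)} (he : e * e = e)
    {n m : ℕ} (hE : VanF true (Fin (n + 1)) (mat e))
    (hO : VanF false (Fin (m + 1)) (mat (1 - e))) :
    ∃ e' : EndF C (U1 X), e' * e' = e' ∧ IsHom 0 e' ∧ VanF true (Fin (n + 1)) (mat e') ∧
      VanF false (Fin (m + 1)) (mat (1 - e')) := by
  have hnil : ∀ x : EndF C (U1 X), InRad (trF hne (U1 X)) x → IsNilpotent x := fun x hx =>
    isNilpotent_of_inRad trF_comm he (n := n) (m := m) hE.killed hO.killed hx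
  have hr := inRad_sub_hc (hne := hne) he hE hO
  set e0 := hc 0 e with he0
  have hs : ∀ a b : EndF C (U1 X), trF hne (U1 X) (a * b) = trF hne (U1 X) (b * a) := trF_comm
  have hD : InRad (trF hne (U1 X)) (e0 * e0 - e0) := by
    have h1 : e0 * e0 - e0 = (e * e - e) - (e - e0) * e0 - e * (e - e0) + (e - e0) := by
      noncomm_ring
    rw [h1, he, sub_self, zero_sub]
    exact (((hr.mul_right _).neg).sub (hr.mul_left hs _)).add hr
  obtain ⟨e', c, h1, h2, h3, -⟩ := exists_lift' (hnil _ hD)
  have h4 : InRad (trF hne (U1 X)) (e' - e) := by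
    have h5 : e' - e = (e' - e0) - (e - e0) := by abel
    rw [h5, h2]
    exact (hD.mul_right c).sub hr
  obtain ⟨u, v, huv, hvu, hconj⟩ := exists_conj hs h1 he hnil h4
  have h5 : (1 : EndF C (U1 X)) - e' = u * (1 - e) * v := by
    rw [mul_sub, sub_mul, mul_one, huv, hconj]
  refine ⟨e', h1, ?_, ?_, ?_⟩
  · have h6 : Algebra.adjoin ℚ {e0} ≤ deg0 C (U1 X) := by
      apply Algebra.adjoin_le
      rintro x hx
      rw [Set.mem_singleton_iff] at hx
      rw [hx]
      exact hc_isHom 0 e
    exact h6 h3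
  · rw [hconj]
    exact hE.conj
  · rw [h5]
    exact hO.conj

/-! ### Comparison of the definitions -/

lemma vanF_iff_gd {s : Bool} {n : ℕ} {p : C.A (X.prod X)} :
    VanF s (Fin n) (mat (ofMat (fun _ _ => p) : EndF C (U1 X))) ↔
      ∀ (W : 𝒱.Obj) (x y : Fin n → (W ⟶ X)), gd s (fun _ _ => p) x y = 0 := by
  constructor
  · intro h W x y
    exact h W (fun i => ⟨(), x i⟩) (fun i => ⟨(), y i⟩)
  · intro h W x y
    exact h W (fun i => (x i).2) (fun i => (y i).2)

lemma one_sub_eq (e : EndF C (U1 X)) :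
    (1 : EndF C (U1 X)) - e = ofMat (fun _ _ => dg C X - mat e () ()) := by
  apply mat_inj
  funext i j
  rw [mat_sub, mat_one, Pi.sub_apply, Pi.sub_apply, oneF]
  have : j = i := Subsingleton.elim _ _
  subst this
  rw [Pi.single_eq_same]
  rfl

lemma mul_self_iff (e : EndF C (U1 X)) :
    e * e = e ↔ C.comp (mat e () ()) (mat e () ()) = mat e () () := by
  constructor
  · intro h
    have h1 := congrFun (congrFun (congrArg mat h) ()) ()
    rw [mat_mul, compF_apply, Fintype.sum_unique] at h1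
    exact h1
  · intro h
    apply mat_inj
    funext i j
    rw [mat_mul, compF_apply, Fintype.sum_unique]
    exact h

lemma isNCKimura_iff (X : 𝒱.Obj) : IsNCKimura C X ↔ ∃ e : EndF C (U1 X), e * e = e ∧
    (∃ n, VanF true (Fin (n + 1)) (mat e)) ∧ ∃ m, VanF false (Fin (m + 1)) (mat (1 - e)) := by
  constructor
  · rintro ⟨e, he, ⟨n, hn, h1⟩, ⟨m, hm, h2⟩⟩
    obtain ⟨n, rfl⟩ := Nat.exists_eq_add_of_le' hn
    obtain ⟨m, rfl⟩ := Nat.exists_eq_add_of_le' hm
    refine ⟨ofMat (fun _ _ => e), (mul_self_iff _).2 he, ⟨n, ?_⟩, ⟨m, ?_⟩⟩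
    · rw [vanF_iff_gd]
      intro W x y
      rw [← altPower_eq]
      exact h1 W x y
    · rw [one_sub_eq, vanF_iff_gd]
      intro W x y
      rw [← symPower_eq]
      exact h2 W x y
  · rintro ⟨e, he, ⟨n, h1⟩, ⟨m, h2⟩⟩
    have h1' : VanF true (Fin (n + 1)) (mat (ofMat (fun _ _ => mat e () ()) : EndF C (U1 X))) := h1
    rw [one_sub_eq] at h2
    rw [vanF_iff_gd] at h1' h2
    refine ⟨mat e () (), (mul_self_iff e).1 he, ⟨n + 1, by omega, fun W x y => ?_⟩,
      ⟨m + 1, by omega, fun W x y => ?_⟩⟩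
    · rw [altPower_eq]
      exact h1' W x y
    · rw [symPower_eq]
      exact h2 W x y

/-- The noncommutative motive `U(X)` is Kimura-finite if and only if the Chow motive `h(X)` is. -/
theorem isNCKimura_iff_isKimuraFinite (hne : ∀ X : 𝒱.Obj, (1 : C.A X) ≠ 0) (X : 𝒱.Obj) :
    IsNCKimura C X ↔ IsKimuraFinite C (ratFam C) X := by
  constructor
  · intro h
    obtain ⟨e, he, ⟨n, hE⟩, ⟨m, hO⟩⟩ := (isNCKimura_iff X).1 h
    obtain ⟨e', he', hdeg, hE', hO'⟩ := exists_deg0 hne he hE hO
    have h1' : VanF true (Fin (n + 1)) (mat (ofMat (fun _ _ => mat e' () ()) : EndF C (U1 X))) :=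
      hE'
    rw [one_sub_eq] at hO'
    rw [vanF_iff_gd] at h1' hO'
    refine ⟨mat e' () (), ?_, ?_, ⟨n + 1, by omega, fun W x y => ?_⟩,
      ⟨m + 1, by omega, fun W x y => ?_⟩⟩
    · have h3 := hdeg () ()
      rwa [add_zero] at h3
    · exact (Submodule.mem_bot ℚ).2 (sub_eq_zero.2 ((mul_self_iff e').1 he'))
    · rw [altPower_eq]
      exact (Submodule.mem_bot ℚ).2 (h1' W x y)
    · rw [symPower_eq]
      exact (Submodule.mem_bot ℚ).2 (hO' W x y)
  · rintro ⟨e, -, he, ⟨n, hn, h1⟩, ⟨m, hm, h2⟩⟩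
    refine ⟨e, ?_, ⟨n, hn, fun W x y => ?_⟩, ⟨m, hm, fun W x y => ?_⟩⟩
    · exact sub_eq_zero.1 ((Submodule.mem_bot ℚ).1 he)
    · exact (Submodule.mem_bot ℚ).1 (h1 W x y)
    · exact (Submodule.mem_bot ℚ).1 (h2 W x y)

end Pool.Agent.Q263.NCK
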