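import Pool.Agent.Q263.NCK.Single

/-!
# Direct sums and direct summands
-/

open CategoryTheory AlgebraicGeometry

universe u v w

namespace Pool.Agent.Q263.NCK

open Pool.Agent.H914 Pool.Agent.H914.VarClass Pool.Agent.H914.VarClass.Obj Pool.Agent.W492.BB
  Pool.Agent.W550.Corr Pool.Agent.TH133 Pool.Agent.TH829.Prime Pool.Agent.TH829.Kim

set_option linter.unusedSectionVars false

variable {k : Type u} [Field k] {𝒱 : VarClass k}

variable {C : TheoryData.{u, v, 0} 𝒱 ℚ} [hC : IsChowProj C] {W : 𝒱.Obj}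

section det

variable {I J : Type} [Fintype I] [Fintype J] {X : I → 𝒱.Obj} {Y : J → 𝒱.Obj}

include hC

lemma gF_reindex (s : Bool) {α β : Type} [Fintype α] [DecidableEq α] [Fintype β] [DecidableEq β]
    (ε : α ≃ β) (q : HomF C X Y) (x : β → Pt X W) (y : β → Pt Y W) :
    gF s (fun _ => q) (fun i => x (ε i)) (fun i => y (ε i)) = gF s (fun _ => q) x y := by
  rw [gF, gF, ← Equiv.sum_comp ε.permCongr]
  apply Finset.sum_congr rfl
  intro σ _
  rw [wt_permCongr, ← Equiv.prod_comp ε]
  simp only [Equiv.permCongr_apply, Equiv.symm_apply_apply]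

lemma VanF.reindex {s : Bool} {α β : Type} [Fintype α] [DecidableEq α] [Fintype β] [DecidableEq β]
    (ε : α ≃ β) {q : HomF C X Y} (h : VanF s β q) : VanF s α q := by
  intro W x y
  have h1 := gF_reindex s ε q (fun j => x (ε.symm j)) (fun j => y (ε.symm j))
  simp only [Equiv.symm_apply_apply] at h1
  rw [h1]
  exact h W _ _

/-- If the rows in `S` vanish for all choices of the columns then the determinant vanishes. -/
lemma gF_eq_zero_of_rows (s : Bool) {ι : Type} [Fintype ι] [DecidableEq ι] (p : ι → HomF C X Y)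
    (S : Finset ι) (q : HomF C X Y) (hq : ∀ i ∈ S, p i = q) (h : VanF s {i // i ∈ S} q)
    (x : ι → Pt X W) (y : ι → Pt Y W) : gF s p x y = 0 := by
  -- average over the permutations of `S`
  have h1 : ∀ τ : Equiv.Perm {i // i ∈ S}, gF s p x y = ∑ σ : Equiv.Perm ι,
      (wt s σ * wt s τ) • (((∏ i : {i // i ∈ S}, val C q (x i) (y (σ (τ i)))) *
        ∏ i ∈ Sᶜ, val C (p i) (x i) (y (σ i)))) := by
    intro τ
    rw [gF, ← Equiv.sum_comp (Equiv.mulRight (Equiv.Perm.ofSubtype τ : Equiv.Perm ι))]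
    apply Finset.sum_congr rfl
    intro σ _
    have e1 : wt s (Equiv.mulRight (Equiv.Perm.ofSubtype τ : Equiv.Perm ι) σ) =
        wt s σ * wt s τ := by
      rw [Equiv.coe_mulRight, wt_mul]
      congr 1
      unfold wt
      split_ifs
      · rw [Equiv.Perm.sign_ofSubtype]
      · rfl
    rw [e1, ← Finset.prod_mul_prod_compl S, ← Finset.prod_coe_sort S]
    congr 2
    · apply Finset.prod_congr rfl
      rintro ⟨i, hi⟩ _
      rw [hq i hi, Equiv.coe_mulRight, Equiv.Perm.mul_apply, Equiv.Perm.ofSubtype_apply_of_mem τ hi]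
    · apply Finset.prod_congr rfl
      intro i hi
      rw [Equiv.coe_mulRight, Equiv.Perm.mul_apply,
        Equiv.Perm.ofSubtype_apply_of_not_mem τ (Finset.mem_compl.1 hi)]
  have h2 : (Fintype.card (Equiv.Perm {i // i ∈ S})) • gF s p x y = 0 := by
    rw [← Finset.card_univ, ← Finset.sum_const, Finset.sum_congr rfl (fun τ _ => h1 τ),
      Finset.sum_comm]
    apply Finset.sum_eq_zero
    intro σ _
    have h3 := h W (fun i => x i) (fun i => y (σ i))
    rw [gF] at h3
    have h4 : ∀ τ : Equiv.Perm {i // i ∈ S}, (wt s σ * wt s τ) •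
        (((∏ i : {i // i ∈ S}, val C q (x i) (y (σ (τ i)))) *
        ∏ i ∈ Sᶜ, val C (p i) (x i) (y (σ i)))) =
        wt s σ • ((wt s τ • ∏ i : {i // i ∈ S}, val C q (x i) (y (σ (τ i)))) *
        ∏ i ∈ Sᶜ, val C (p i) (x i) (y (σ i))) := by
      intro τ
      rw [mul_smul, smul_mul_assoc]
    rw [Finset.sum_congr rfl (fun τ _ => h4 τ), ← Finset.smul_sum, ← Finset.sum_mul, h3, zero_mul,
      smul_zero]
  rw [← Nat.cast_smul_eq_nsmul ℚ] at h2
  refine (smul_eq_zero.1 h2).resolve_left ?_
  have : 0 < Fintype.card (Equiv.Perm {i // i ∈ S}) := Fintype.card_pos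
  positivity

/-- Sums of matrices, expanded by rows. -/
lemma gF_sum (s : Bool) {ι L : Type} [Fintype ι] [DecidableEq ι] [Fintype L] [DecidableEq L]
    (q : L → HomF C X Y) (x : ι → Pt X W) (y : ι → Pt Y W) :
    gF s (fun _ => ∑ l, q l) x y = ∑ c : ι → L, gF s (fun i => q (c i)) x y := by
  have hval : ∀ (x' : Pt X W) (y' : Pt Y W), val C (∑ l, q l) x' y' = ∑ l, val C (q l) x' y' := by
    intro x' y'
    rw [val, TheoryData.up, Finset.sum_apply, Finset.sum_apply, map_sum]
    rfl
  simp only [gF, hval]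
  have h1 : ∀ σ : Equiv.Perm ι, ∏ i, ∑ l, val C (q l) (x i) (y (σ i)) =
      ∑ c : ι → L, ∏ i, val C (q (c i)) (x i) (y (σ i)) := by
    intro σ
    rw [Finset.prod_univ_sum]
    simp only [Fintype.piFinset_univ]
  simp only [h1, Finset.smul_sum]
  exact Finset.sum_comm

end det

section diag

variable {I : Type} [Fintype I] [DecidableEq I] {Y : I → 𝒱.Obj}

include hC

/-- The projection to a member of the family. -/
noncomputable def pj (C : TheoryData.{u, v, 0} 𝒱 ℚ) (Y : I → 𝒱.Obj) (i : I) : HomF C Y (U1 (Y i)) :=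
  fun j _ => (Pi.single i (dg C (Y i)) : ∀ j, C.A ((Y j).prod (Y i))) j

/-- The inclusion of a member of the family. -/
noncomputable def ij (C : TheoryData.{u, v, 0} 𝒱 ℚ) (Y : I → 𝒱.Obj) (i : I) : HomF C (U1 (Y i)) Y :=
  fun _ j => (Pi.single i (dg C (Y i)) : ∀ j, C.A ((Y i).prod (Y j))) j

/-- The block with the entry `q` at the place `(i, i)`. -/
noncomputable def blk (i : I) (q : EndF C (U1 (Y i))) : HomF C Y Y :=
  compF C (compF C (pj C Y i) (mat q)) (ij C Y i)

lemma blk_apply (i : I) (q : EndF C (U1 (Y i))) (j l : I) :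
    blk i q j l = if j = i ∧ l = i then blk i q j l else 0 := by
  by_cases h : j = i ∧ l = i
  · rw [if_pos h]
  · rw [if_neg h, blk, compF_apply, Fintype.sum_unique, compF_apply, Fintype.sum_unique]
    rcases not_and_or.1 h with h1 | h1
    · have : pj C Y i j default = 0 := Pi.single_eq_of_ne h1 _
      rw [this, zero_comp, zero_comp]
    · have : ij C Y i default l = 0 := Pi.single_eq_of_ne h1 _
      rw [this, comp_zero]

lemma blk_self (i : I) (q : EndF C (U1 (Y i))) : blk i q i i = mat q () () := by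
  rw [blk, compF_apply, Fintype.sum_unique, compF_apply, Fintype.sum_unique]
  have h1 : pj C Y i i default = dg C (Y i) := Pi.single_eq_same _ _
  have h2 : ij C Y i default i = dg C (Y i) := Pi.single_eq_same _ _
  rw [h1, h2, comp_dg, dg_comp]

/-- The diagonal matrix. -/
noncomputable def diagF (q : ∀ i, EndF C (U1 (Y i))) : EndF C Y := ofMat (∑ i, blk i (q i))

lemma mat_diagF (q : ∀ i, EndF C (U1 (Y i))) (j : I) :
    mat (diagF q) j = Pi.single j (mat (q j) () ()) := by
  funext l
  rw [diagF, mat_ofMat, Finset.sum_apply, Finset.sum_apply]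
  by_cases h : l = j
  · subst h
    rw [Pi.single_eq_same, Finset.sum_eq_single l, blk_self]
    · intro i _ hi
      rw [blk_apply, if_neg (fun h => hi h.1.symm)]
    · intro h
      exact absurd (Finset.mem_univ l) h
  · rw [Pi.single_eq_of_ne h]
    apply Finset.sum_eq_zero
    intro i _
    rw [blk_apply, if_neg]
    rintro ⟨rfl, rfl⟩
    exact h rfl

lemma diagF_mul (q r : ∀ i, EndF C (U1 (Y i))) :
    diagF q * diagF r = diagF (fun i => q i * r i) := by
  apply mat_inj
  funext j l
  rw [mat_mul, compF_apply, mat_diagF, mat_diagF, Finset.sum_eq_single j]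
  · rw [Pi.single_eq_same]
    by_cases h : l = j
    · subst h
      rw [mat_diagF, Pi.single_eq_same, Pi.single_eq_same, mat_mul, compF_apply,
        Fintype.sum_unique]
    · rw [mat_diagF, Pi.single_eq_of_ne h, Pi.single_eq_of_ne h, comp_zero]
  · intro m _ hm
    rw [Pi.single_eq_of_ne hm, zero_comp]
  · intro h
    exact absurd (Finset.mem_univ j) h

lemma one_sub_diagF (q : ∀ i, EndF C (U1 (Y i))) : 1 - diagF q = diagF (fun i => 1 - q i) := by
  apply mat_inj
  funext j l
  rw [mat_sub, mat_one, Pi.sub_apply, Pi.sub_apply, mat_diagF, mat_diagF, oneF]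
  by_cases h : l = j
  · subst h
    rw [Pi.single_eq_same, Pi.single_eq_same, Pi.single_eq_same, one_sub_eq]
    rfl
  · rw [Pi.single_eq_of_ne h, Pi.single_eq_of_ne h, Pi.single_eq_of_ne h, sub_zero]

/-- Direct sums of even (odd) motives are even (odd). -/
lemma VanF.diagF {s : Bool} {q : ∀ i, EndF C (U1 (Y i))} {n : I → ℕ}
    (h : ∀ i, VanF s (Fin (n i)) (mat (q i))) :
    VanF s (Fin (∑ i, n i + 1)) (mat (NCK.diagF q)) := by
  intro W x y
  have h1 : mat (NCK.diagF q) = ∑ i, blk i (q i) := rfl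
  rw [h1, gF_sum]
  apply Finset.sum_eq_zero
  intro c _
  obtain ⟨i, hi⟩ : ∃ i, n i ≤ (Finset.univ.filter (fun k => c k = i)).card := by
    by_contra hcon
    push Not at hcon
    have h2 : ∑ i, (Finset.univ.filter (fun k => c k = i)).card = ∑ i, n i + 1 := by
      rw [← Finset.card_eq_sum_card_fiberwise (f := c) (s := Finset.univ) (t := Finset.univ)
        (fun _ _ => Finset.mem_univ _)]
      simp
    have h3 : ∑ i, (Finset.univ.filter (fun k => c k = i)).card ≤ ∑ i, n i :=
      Finset.sum_le_sum fun i _ => (hcon i).le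
    omega
  obtain ⟨S, hS1, hS2⟩ := Finset.exists_subset_card_eq hi
  apply gF_eq_zero_of_rows s _ S (blk i (q i))
  · intro l hl
    have h4 := (Finset.mem_filter.1 (hS1 hl)).2
    rw [h4]
  · have h5 : VanF s (Fin (n i)) (blk i (q i)) := (h i).comp _ _
    have e : {l // l ∈ S} ≃ Fin (n i) := by
      rw [← hS2]
      exact S.equivFin
    exact h5.reindex e

end diag

end Pool.Agent.Q263.NCK
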