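import Pool.Agent.Q263.NCK.Ring

/-!
# Values at points; row and column operations
-/

open CategoryTheory AlgebraicGeometry

universe u v w

namespace Pool.Agent.Q263.NCK

open Pool.Agent.H914 Pool.Agent.H914.VarClass Pool.Agent.H914.VarClass.Obj Pool.Agent.W492.BB
  Pool.Agent.W550.Corr Pool.Agent.TH133 Pool.Agent.TH829.Prime Pool.Agent.TH829.Kim

set_option linter.unusedSectionVars false

variable {k : Type u} [Field k] {𝒱 : VarClass k}

section basic

variable {C : TheoryData.{u, v, 0} 𝒱 ℚ} [hC : IsChowProj C] {X Y Z W V : 𝒱.Obj}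

/-- The exchange of the last two factors. -/
noncomputable def rho3 (X Y Z : 𝒱.Obj) : (X.prod Y).prod Z ⟶ (X.prod Z).prod Y :=
  Obj.lift (Obj.lift (fst (X.prod Y) Z ≫ fst X Y) (snd (X.prod Y) Z))
    (fst (X.prod Y) Z ≫ snd X Y)

lemma rho3_rho3 (X Y Z : 𝒱.Obj) : rho3 X Y Z ≫ rho3 X Z Y = 𝟙 _ := by
  apply prod_ext
  · apply prod_ext <;> simp [rho3, comp_lift]
  · simp [rho3, comp_lift]

include hC

/-- The value of a composition. -/
lemma pull_comp_val (a : C.A (X.prod Y)) (b : C.A (Y.prod Z)) (x : W ⟶ X) (z : W ⟶ Z) :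
    C.pull (Obj.lift x z) (C.comp a b) = C.push (fst W Y)
      (C.pull (Obj.lift (fst W Y ≫ x) (snd W Y)) a *
        C.pull (Obj.lift (snd W Y) (fst W Y ≫ z)) b) := by
  have e1 : t13 X Y Z = rho3 X Y Z ≫ fst (X.prod Z) Y := by
    apply prod_ext <;> simp [rho3, t13, comp_lift]
  have e2 : (prodMap (Obj.lift x z) (𝟙 Y) ≫ rho3 X Z Y) ≫ t23 X Y Z =
      Obj.lift (snd W Y) (fst W Y ≫ z) := by
    apply prod_ext <;> simp [rho3, t23, comp_lift]
  have e3 : (prodMap (Obj.lift x z) (𝟙 Y) ≫ rho3 X Z Y) ≫ fst (X.prod Y) Z =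
      Obj.lift (fst W Y ≫ x) (snd W Y) := by
    apply prod_ext <;> simp [rho3, comp_lift]
  rw [TheoryData.comp, e1, C.push_comp,
    ← pull_iso C (rho3 X Z Y) (rho3 X Y Z) (rho3_rho3 X Z Y) (rho3_rho3 X Y Z),
    base_pull, ← C.pull_comp, map_mul, ← C.pull_comp, ← C.pull_comp, e2, e3, ch_comm C]

omit hC in
lemma span_grC [hC : IsChowProj C] (X : 𝒱.Obj) (a : C.A X) : a ∈ ⨆ i, C.gr X i := by
  rw [(C.isInternal X).submodule_iSup_eq_top]; trivial

/-- Linear maps agreeing on homogeneous classes agree. -/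
lemma ext_grC {V : Type*} [AddCommGroup V] [Module ℚ V] {f g : C.A X →ₗ[ℚ] V}
    (h : ∀ i, ∀ a ∈ C.gr X i, f a = g a) : f = g := by
  apply LinearMap.ext
  intro a
  have h1 : ⨆ i, C.gr X i ≤ LinearMap.eqLocus f g := iSup_le fun i x hx => h i x hx
  exact h1 (span_grC X a)

/-- Homogeneous classes of codimension different from the dimension have degree zero. -/
lemma hasDegree_of_ne {x : C.A X} {i : ℤ} (hx : x ∈ C.gr X i) (hi : i ≠ X.dim) :
    HasDegree C x 0 := by
  rcases lt_or_gt_of_ne hi with h | h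
  · intro Y
    constructor
    · have h1 := C.push_mem (snd X Y) (C.pull_mem (fst X Y) hx)
      rw [C.gr_neg _ _ (by rw [dim_prod]; push_cast; omega), Submodule.mem_bot] at h1
      rw [h1, zero_smul]
    · have h1 := C.push_mem (fst Y X) (C.pull_mem (snd Y X) hx)
      rw [C.gr_neg _ _ (by rw [dim_prod]; push_cast; omega), Submodule.mem_bot] at h1
      rw [h1, zero_smul]
  · rw [hC.gr_top X i x hx h]
    exact hasDegree_zero

/-- Every class has a degree. -/
lemma exists_degree (x : C.A X) : ∃ q, HasDegree C x q := by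
  have h := span_grC X x
  induction h using Submodule.iSup_induction' with
  | mem i x hx =>
    by_cases hi : i = X.dim
    · subst hi
      exact exists_hasDegree hx
    · exact ⟨0, hasDegree_of_ne hx hi⟩
  | zero => exact ⟨0, hasDegree_zero⟩
  | add x y _ _ h1 h2 =>
    obtain ⟨q, hq⟩ := h1
    obtain ⟨r, hr⟩ := h2
    exact ⟨q + r, HasDegree.add hq hr⟩

end basic

section points

variable {C : TheoryData.{u, v, 0} 𝒱 ℚ} [hC : IsChowProj C] {W V : 𝒱.Obj}
  {I J L M : Type} [Fintype I] [Fintype J] [Fintype L] [Fintype M]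
  {X : I → 𝒱.Obj} {Y : J → 𝒱.Obj} {Z : L → 𝒱.Obj}

/-- The pull-back of a point. -/
def ptPull (g : V ⟶ W) (x : Pt X W) : Pt X V := ⟨x.1, g ≫ x.2⟩

include hC

lemma pull_val (g : V ⟶ W) (a : HomF C X Y) (x : Pt X W) (y : Pt Y W) :
    C.pull g (val C a x y) = val C a (ptPull g x) (ptPull g y) := by
  rw [val, val, TheoryData.up, TheoryData.up, ← C.pull_comp, comp_lift]
  rfl

lemma val_add (a b : HomF C X Y) (x : Pt X W) (y : Pt Y W) :
    val C (a + b) x y = val C a x y + val C b x y := map_add _ _ _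

lemma val_smul (r : ℚ) (a : HomF C X Y) (x : Pt X W) (y : Pt Y W) :
    val C (r • a) x y = r • val C a x y := map_smul _ _ _

/-- The value of a composition. -/
lemma val_comp (a : HomF C X Y) (b : HomF C Y Z) (x : Pt X W) (z : Pt Z W) :
    val C (compF C a b) x z = ∑ j, C.push (fst W (Y j))
      (val C a (ptPull (fst W (Y j)) x) ⟨j, snd W (Y j)⟩ *
        val C b ⟨j, snd W (Y j)⟩ (ptPull (fst W (Y j)) z)) := by
  rw [val, TheoryData.up, compF_apply, map_sum]
  exact Finset.sum_congr rfl fun j _ => pull_comp_val _ _ _ _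

/-- The transpose. -/
noncomputable def tpF (a : HomF C X Y) : HomF C Y X := fun j i => tp C (a i j)

lemma val_tpF (a : HomF C X Y) (x : Pt X W) (y : Pt Y W) : val C (tpF a) y x = val C a x y := by
  rw [val, val, TheoryData.up, TheoryData.up, tpF, tp, ← C.pull_comp, sw, comp_lift, lift_fst,
    lift_snd]

lemma tpF_tpF (a : HomF C X Y) : tpF (tpF a) = a := by
  funext i j
  exact tp_tp C _

lemma tpF_compF (a : HomF C X Y) (b : HomF C Y Z) :
    tpF (compF C a b) = compF C (tpF b) (tpF a) := by
  funext l i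
  rw [tpF, compF_apply, compF_apply, tp_sum]
  exact Finset.sum_congr rfl fun j _ => tp_comp C (ch_comm C) _ _

end points

section det

variable {C : TheoryData.{u, v, 0} 𝒱 ℚ} [hC : IsChowProj C] {W V : 𝒱.Obj}
  {I J L M : Type} [Fintype I] [Fintype J] [Fintype L] [Fintype M]
  {X : I → 𝒱.Obj} {Y : J → 𝒱.Obj} {Z : L → 𝒱.Obj}
  {ι : Type} [Fintype ι] [DecidableEq ι]

include hC

/-- The determinant (`s = true`) or permanent (`s = false`) with rows from different matrices. -/
noncomputable def gF (s : Bool) (p : ι → HomF C X Y) (x : ι → Pt X W) (y : ι → Pt Y W) : C.A W :=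
  ∑ σ : Equiv.Perm ι, wt s σ • ∏ i, val C (p i) (x i) (y (σ i))

lemma pull_gF (s : Bool) (g : V ⟶ W) (p : ι → HomF C X Y) (x : ι → Pt X W) (y : ι → Pt Y W) :
    C.pull g (gF s p x y) = gF s p (fun i => ptPull g (x i)) (fun i => ptPull g (y i)) := by
  rw [gF, gF, map_sum]
  apply Finset.sum_congr rfl
  intro σ _
  rw [map_zsmul, map_prod]
  simp only [pull_val]

/-- All (anti)symmetrizations vanish. -/
def VanF (s : Bool) (ι : Type) [Fintype ι] [DecidableEq ι] (p : HomF C X Y) : Prop :=
  ∀ (W : 𝒱.Obj) (x : ι → Pt X W) (y : ι → Pt Y W), gF s (fun _ => p) x y = 0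

/-- Row operations with correspondences between different families. -/
lemma VanF.rows {s : Bool} {p : HomF C Y Z} (h : VanF s ι p) (a : ι → HomF C X Y) :
    ∀ (W : 𝒱.Obj) (x : ι → Pt X W) (z : ι → Pt Z W),
      gF s (fun i => compF C (a i) p) x z = 0 := by
  have key : ∀ (T : Finset ι) (W : 𝒱.Obj) (x : ι → Pt X W) (y : ι → Pt Y W) (z : ι → Pt Z W),
      ∑ σ : Equiv.Perm ι, wt s σ • ∏ i, (if i ∈ T then val C (compF C (a i) p) (x i) (z (σ i))
        else val C p (y i) (z (σ i))) = 0 := by
    intro T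
    induction T using Finset.induction_on with
    | empty =>
      intro W x y z
      have := h W y z
      rw [gF] at this
      simpa using this
    | insert l T hl ih =>
      intro W x y z
      have h1 : ∀ σ : Equiv.Perm ι, ∏ i, (if i ∈ insert l T then
          val C (compF C (a i) p) (x i) (z (σ i)) else val C p (y i) (z (σ i))) =
          ∑ j, C.push (fst W (Y j)) (val C (a l) (ptPull (fst W (Y j)) (x l))
            ⟨j, snd W (Y j)⟩ * ∏ i, (if i ∈ T then
              val C (compF C (a i) p) (ptPull (fst W (Y j)) (x i)) (ptPull (fst W (Y j)) (z (σ i)))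
              else val C p (Function.update (fun i => ptPull (fst W (Y j)) (y i)) l
                ⟨j, snd W (Y j)⟩ i) (ptPull (fst W (Y j)) (z (σ i))))) := by
        intro σ
        rw [← Finset.mul_prod_erase Finset.univ _ (Finset.mem_univ l),
          if_pos (Finset.mem_insert_self l T), val_comp, Finset.sum_mul]
        apply Finset.sum_congr rfl
        intro j _
        rw [← Finset.mul_prod_erase Finset.univ (fun i => (if i ∈ T then
              val C (compF C (a i) p) (ptPull (fst W (Y j)) (x i)) (ptPull (fst W (Y j)) (z (σ i)))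
              else val C p (Function.update (fun i => ptPull (fst W (Y j)) (y i)) l
                ⟨j, snd W (Y j)⟩ i) (ptPull (fst W (Y j)) (z (σ i))))) (Finset.mem_univ l),
          if_neg hl, Function.update_self, ← mul_assoc, ← C.proj_right, map_prod]
        congr 2
        apply Finset.prod_congr rfl
        intro i hi
        have hil : i ≠ l := (Finset.mem_erase.1 hi).1
        rw [Function.update_of_ne hil]
        by_cases hiT : i ∈ T
        · rw [if_pos (Finset.mem_insert_of_mem hiT), if_pos hiT, pull_val]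
        · rw [if_neg (by simp [hil, hiT]), if_neg hiT, pull_val]
      simp only [h1, Finset.smul_sum]
      rw [Finset.sum_comm]
      apply Finset.sum_eq_zero
      intro j _
      have h2 := ih (W.prod (Y j)) (fun i => ptPull (fst W (Y j)) (x i))
        (Function.update (fun i => ptPull (fst W (Y j)) (y i)) l ⟨j, snd W (Y j)⟩)
        (fun i => ptPull (fst W (Y j)) (z i))
      have h3 : ∀ σ : Equiv.Perm ι, ∀ c : C.A (W.prod (Y j)), wt s σ • C.push (fst W (Y j))
          (val C (a l) (ptPull (fst W (Y j)) (x l)) ⟨j, snd W (Y j)⟩ * c) =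
          C.push (fst W (Y j)) (val C (a l) (ptPull (fst W (Y j)) (x l))
            ⟨j, snd W (Y j)⟩ * (wt s σ • c)) := by
        intro σ c
        rw [mul_smul_comm, map_zsmul]
      simp only [h3]
      rw [← map_sum, ← Finset.mul_sum, h2, mul_zero, map_zero]
  intro W x z
  rcases isEmpty_or_nonempty ι with hι | ⟨⟨i0⟩⟩
  · have h1 := h W (fun i => hι.elim i) z
    rw [gF, Fintype.sum_unique] at h1 ⊢
    rw [Finset.prod_of_isEmpty] at h1 ⊢
    exact h1
  · rcases isEmpty_or_nonempty J with hJ | ⟨⟨j0⟩⟩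
    · rw [gF]
      apply Finset.sum_eq_zero
      intro σ _
      rw [Finset.prod_eq_zero (Finset.mem_univ i0), smul_zero]
      rw [val_comp, Fintype.sum_empty]
    · obtain ⟨α, -, hα, -⟩ := hC.exists_deg_one (Y j0)
      have h1 := key Finset.univ (W.prod (Y j0)) (fun i => ptPull (fst W (Y j0)) (x i))
        (fun _ => ⟨j0, snd W (Y j0)⟩) (fun i => ptPull (fst W (Y j0)) (z i))
      have h2 : C.pull (fst W (Y j0)) (gF s (fun i => compF C (a i) p) x z) = 0 := by
        rw [pull_gF, gF]
        simpa using h1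
      have h3 := C.proj_right (fst W (Y j0)) (C.pull (snd W (Y j0)) α)
        (gF s (fun i => compF C (a i) p) x z)
      rw [h2, mul_zero, map_zero] at h3
      have h4 : C.push (fst W (Y j0)) (C.pull (snd W (Y j0)) α) = 1 := hα W
      rw [h4, one_mul] at h3
      exact h3.symm

lemma gF_tpF (s : Bool) (p : HomF C X Y) (x : ι → Pt X W) (y : ι → Pt Y W) :
    gF s (fun _ : ι => tpF p) y x = gF s (fun _ : ι => p) x y := by
  rw [gF, gF, ← Equiv.sum_comp (Equiv.inv (Equiv.Perm ι))]
  apply Finset.sum_congr rfl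
  intro σ _
  have h1 : wt s (Equiv.inv (Equiv.Perm ι) σ) = wt s σ := by
    unfold wt
    split_ifs
    · rw [Equiv.inv_apply, Equiv.Perm.sign_inv]
    · rfl
  rw [h1, ← Equiv.prod_comp σ]
  congr 1
  apply Finset.prod_congr rfl
  intro i _
  rw [val_tpF, Equiv.inv_apply]
  simp

lemma VanF.tpF {s : Bool} {p : HomF C X Y} (h : VanF s ι p) : VanF s ι (tpF p) := by
  intro W x y
  rw [gF_tpF]
  exact h W y x

/-- Compositions with other correspondences. -/
lemma VanF.comp {s : Bool} {p : HomF C Y Y} (h : VanF s ι p) (a : HomF C X Y) (b : HomF C Y Z) :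
    VanF s ι (compF C (compF C a p) b) := by
  have h1 : VanF s ι (compF C p b) := by
    have h2 : VanF s ι (NCK.tpF (compF C p b)) := by
      rw [tpF_compF]
      intro W x y
      exact h.tpF.rows (fun _ => NCK.tpF b) W x y
    have h3 := h2.tpF
    rwa [tpF_tpF] at h3
  rw [compF_assoc]
  intro W x y
  exact h1.rows (fun _ => a) W x y

end det

end Pool.Agent.Q263.NCK
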